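import Mathlib

/-!
# Random 2-SAT: literals, clauses as arcs, finite uniform probability
-/

set_option autoImplicit false

open Finset
open scoped Classical

namespace Pool.Agent.Helper96.TwoSat

/-- literals -/
abbrev Lit (n : ℕ) := Fin n × Bool

variable {n : ℕ}

/-- the opposite literal -/
def neg (l : Lit n) : Lit n := (l.1, !l.2)

@[simp] lemma neg_neg (l : Lit n) : neg (neg l) = l := by simp [neg]

@[simp] lemma neg_fst (l : Lit n) : (neg l).1 = l.1 := rfl

@[simp] lemma neg_snd (l : Lit n) : (neg l).2 = !l.2 := rfl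

lemma neg_ne (l : Lit n) : neg l ≠ l := by
  intro h
  have := congrArg Prod.snd h
  simp [neg] at this

lemma neg_inj {u v : Lit n} (h : neg u = neg v) : u = v := by
  rw [← neg_neg u, h, neg_neg]

lemma eq_neg_iff {u v : Lit n} : u = neg v ↔ neg u = v := by
  constructor
  · rintro rfl; simp
  · rintro rfl; simp

lemma eq_or_eq_neg {u v : Lit n} (h : u.1 = v.1) : u = v ∨ u = neg v := by
  rcases u with ⟨a, x⟩
  rcases v with ⟨b, y⟩
  simp only at h
  subst h
  cases x <;> cases y <;> simp [neg]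

/-- the clause `¬ u ∨ v`, which gives the implications `u → v` and `¬ v → ¬ u` -/
def arc (u v : Lit n) : Finset (Lit n) := {neg u, v}

lemma arc_neg (u v : Lit n) : arc (neg v) (neg u) = arc u v := by
  unfold arc
  rw [neg_neg, Finset.pair_comm]

lemma pair_eq_iff {α : Type*} [DecidableEq α] {a b c d : α} :
    ({a, b} : Finset α) = {c, d} ↔ (a = c ∧ b = d) ∨ (a = d ∧ b = c) := by
  constructor
  · intro h
    have h1 : a ∈ ({c, d} : Finset α) := h ▸ (by simp)
    have h2 : b ∈ ({c, d} : Finset α) := h ▸ (by simp)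
    have h3 : c ∈ ({a, b} : Finset α) := h ▸ (by simp)
    have h4 : d ∈ ({a, b} : Finset α) := h ▸ (by simp)
    simp only [Finset.mem_insert, Finset.mem_singleton] at h1 h2 h3 h4
    rcases h1 with h1 | h1 <;> rcases h2 with h2 | h2 <;> rcases h3 with h3 | h3 <;>
      rcases h4 with h4 | h4 <;> subst_vars <;> simp_all
  · rintro (⟨rfl, rfl⟩ | ⟨rfl, rfl⟩)
    · rfl
    · exact Finset.pair_comm _ _

lemma arc_eq_iff {u v u' v' : Lit n} :
    arc u v = arc u' v' ↔ (u = u' ∧ v = v') ∨ (u = neg v' ∧ v = neg u') := by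
  unfold arc
  rw [pair_eq_iff]
  constructor
  · rintro (⟨h1, h2⟩ | ⟨h1, h2⟩)
    · exact Or.inl ⟨neg_inj h1, h2⟩
    · exact Or.inr ⟨by rw [← h1, neg_neg], h2⟩
  · rintro (⟨h1, h2⟩ | ⟨h1, h2⟩)
    · exact Or.inl ⟨by rw [h1], h2⟩
    · exact Or.inr ⟨by rw [h1, neg_neg], h2⟩

/-- a clause with two literals on different variables -/
def Valid (c : Finset (Lit n)) : Prop := c.card = 2 ∧ (c.image Prod.fst).card = 2

lemma valid_arc {u v : Lit n} (h : u.1 ≠ v.1) : Valid (arc u v) := by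
  unfold Valid arc
  have h1 : neg u ≠ v := fun h' => h (by rw [← h']; rfl)
  refine ⟨Finset.card_pair h1, ?_⟩
  rw [Finset.image_insert, Finset.image_singleton]
  exact Finset.card_pair h

lemma Valid.exists_pair {c : Finset (Lit n)} (h : Valid c) :
    ∃ x y : Lit n, x.1 ≠ y.1 ∧ c = {x, y} := by
  obtain ⟨h1, h2⟩ := h
  obtain ⟨x, y, hxy, rfl⟩ := Finset.card_eq_two.1 h1
  refine ⟨x, y, ?_, rfl⟩
  intro h
  rw [Finset.image_insert, Finset.image_singleton, h] at h2
  simp at h2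

/-- satisfiable sets of clauses -/
def Sat (F : Finset (Finset (Lit n))) : Prop :=
  ∃ a : Fin n → Bool, ∀ c ∈ F, ∃ l ∈ c, a l.1 = l.2

/-- `F` contains a uniquely satisfiable nonempty set of clauses -/
def HasUniq (F : Finset (Finset (Lit n))) : Prop :=
  ∃ H ⊆ F, H.Nonempty ∧ ∃ a : Fin n → Bool, (∀ c ∈ H, ∃ l ∈ c, a l.1 = l.2) ∧
    ∀ b : Fin n → Bool, (∀ c ∈ H, ∃ l ∈ c, b l.1 = l.2) →
      ∀ i : Fin n, (∃ c ∈ H, ∃ l ∈ c, l.1 = i) → b i = a i

/-! ### finite uniform probability -/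

section Pr

variable {Ω : Type*} [Fintype Ω]

/-- the uniform probability of an event -/
noncomputable def pr (Q : Ω → Prop) : ℝ :=
  ((univ.filter Q).card : ℝ) / (Fintype.card Ω : ℝ)

lemma pr_nonneg (Q : Ω → Prop) : 0 ≤ pr Q := by unfold pr; positivity

lemma pr_mono {Q R : Ω → Prop} (h : ∀ ω, Q ω → R ω) : pr Q ≤ pr R := by
  unfold pr
  apply div_le_div_of_nonneg_right _ (by positivity)
  exact_mod_cast Finset.card_le_card (fun ω hω => by
    simp only [mem_filter, mem_univ, true_and] at hω ⊢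
    exact h ω hω)

lemma pr_eq_sum (Q : Ω → Prop) :
    pr Q = (∑ ω : Ω, if Q ω then (1 : ℝ) else 0) / (Fintype.card Ω : ℝ) := by
  unfold pr
  rw [Finset.sum_boole]

lemma pr_le_sum {ι : Type*} (s : Finset ι) (Q : Ω → Prop) (R : ι → Ω → Prop)
    (h : ∀ ω, Q ω → ∃ i ∈ s, R i ω) : pr Q ≤ ∑ i ∈ s, pr (R i) := by
  simp only [pr_eq_sum]
  rw [← Finset.sum_div]
  apply div_le_div_of_nonneg_right _ (by positivity)
  rw [Finset.sum_comm]
  apply Finset.sum_le_sum
  intro ω _
  by_cases hQ : Q ω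
  · obtain ⟨i, hi, hR⟩ := h ω hQ
    rw [if_pos hQ]
    calc (1 : ℝ) = if R i ω then (1 : ℝ) else 0 := by rw [if_pos hR]
      _ ≤ ∑ i ∈ s, if R i ω then (1 : ℝ) else 0 :=
          Finset.single_le_sum (f := fun i => if R i ω then (1 : ℝ) else 0)
            (fun j _ => by split_ifs <;> norm_num) hi
  · rw [if_neg hQ]
    exact Finset.sum_nonneg fun j _ => by split_ifs <;> norm_num

/-- a Markov inequality: if `Q` forces at least `m` of the events `R i` -/
lemma pr_mul_le_sum {ι : Type*} (s : Finset ι) (Q : Ω → Prop) (R : ι → Ω → Prop) (m : ℕ)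
    (h : ∀ ω, Q ω → m ≤ (s.filter fun i => R i ω).card) :
    (m : ℝ) * pr Q ≤ ∑ i ∈ s, pr (R i) := by
  simp only [pr_eq_sum]
  rw [← Finset.sum_div, ← mul_div_assoc]
  apply div_le_div_of_nonneg_right _ (by positivity)
  rw [Finset.sum_comm, Finset.mul_sum]
  apply Finset.sum_le_sum
  intro ω _
  rw [Finset.sum_boole]
  by_cases hQ : Q ω
  · rw [if_pos hQ, mul_one]
    exact_mod_cast h ω hQ
  · rw [if_neg hQ, mul_zero]
    positivity

/-- if at most `m` of the events `R i` happen together, and all force `Q` -/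
lemma sum_le_mul_pr {ι : Type*} (s : Finset ι) (Q : Ω → Prop) (R : ι → Ω → Prop) (m : ℕ)
    (h : ∀ ω, (s.filter fun i => R i ω).card ≤ m) (h' : ∀ i ∈ s, ∀ ω, R i ω → Q ω) :
    ∑ i ∈ s, pr (R i) ≤ m * pr Q := by
  simp only [pr_eq_sum]
  rw [← Finset.sum_div, ← mul_div_assoc]
  apply div_le_div_of_nonneg_right _ (by positivity)
  rw [Finset.sum_comm, Finset.mul_sum]
  apply Finset.sum_le_sum
  intro ω _
  rw [Finset.sum_boole]
  by_cases hQ : Q ω
  · rw [if_pos hQ, mul_one]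
    exact_mod_cast h ω
  · rw [if_neg hQ, mul_zero]
    have : s.filter (fun i => R i ω) = ∅ := by
      rw [Finset.filter_eq_empty_iff]
      intro i hi hR
      exact hQ (h' i hi ω hR)
    rw [this]
    simp

lemma pr_sub_le (Q R : Ω → Prop) : pr Q - pr R ≤ pr (fun ω => Q ω ∧ ¬ R ω) := by
  simp only [pr_eq_sum]
  rw [← sub_div]
  apply div_le_div_of_nonneg_right _ (by positivity)
  rw [← Finset.sum_sub_distrib]
  apply Finset.sum_le_sum
  intro ω _
  by_cases h1 : Q ω <;> by_cases h2 : R ω <;> simp [h1, h2]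

lemma pr_or_le (Q R : Ω → Prop) : pr (fun ω => Q ω ∨ R ω) ≤ pr Q + pr R := by
  simp only [pr_eq_sum]
  rw [← add_div]
  apply div_le_div_of_nonneg_right _ (by positivity)
  rw [← Finset.sum_add_distrib]
  apply Finset.sum_le_sum
  intro ω _
  by_cases h1 : Q ω <;> by_cases h2 : R ω <;> simp [h1, h2]

lemma pr_not [Nonempty Ω] (Q : Ω → Prop) : pr (fun ω => ¬ Q ω) = 1 - pr Q := by
  have h : (Fintype.card Ω : ℝ) ≠ 0 := by
    have := Fintype.card_pos (α := Ω)
    positivity
  rw [eq_sub_iff_add_eq, pr_eq_sum, pr_eq_sum, ← add_div, ← Finset.sum_add_distrib,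
    div_eq_one_iff_eq h]
  rw [Finset.sum_congr rfl (g := fun _ => (1 : ℝ)) fun ω _ => by
    by_cases h1 : Q ω <;> simp [h1]]
  simp

end Pr

end Pool.Agent.Helper96.TwoSat
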