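import Mathlib
import Pool.Agent.Helper96.TwoSat.Base

/-!
# Uniquely satisfiable 2-SAT formulas contain a strongly connected set of literals with a clause
-/

set_option autoImplicit false

open Finset
open scoped Classical

namespace Pool.Agent.Helper96.TwoSat

variable {n : ℕ}

/-- `f 0, ..., f k` is a walk of implications of `F` inside of `S` -/
def WalkIn (S : Lit n → Prop) (F : Finset (Finset (Lit n))) (k : ℕ) (f : ℕ → Lit n) : Prop :=
  (∀ i ≤ k, S (f i)) ∧ ∀ i < k, arc (f i) (f (i + 1)) ∈ F

/-- a walk without repetitions -/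
def PathIn (S : Lit n → Prop) (F : Finset (Finset (Lit n))) (k : ℕ) (f : ℕ → Lit n) : Prop :=
  WalkIn S F k f ∧ ∀ i ≤ k, ∀ j ≤ k, f i = f j → i = j

/-- `S` contains no literal together with its opposite -/
def Consistent (S : Lit n → Prop) : Prop := ∀ l, S l → ¬ S (neg l)

lemma exists_walk {S : Lit n → Prop} {F : Finset (Finset (Lit n))} {y z : Lit n} (hz : S y)
    (h : Relation.ReflTransGen (fun u v => S u ∧ S v ∧ arc u v ∈ F) y z) :
    ∃ k f, f 0 = y ∧ f k = z ∧ WalkIn S F k f := by
  induction h with
  | refl => exact ⟨0, fun _ => y, rfl, rfl, fun i _ => hz, fun i hi => by omega⟩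
  | @tail z' z _ hstep ih =>
    obtain ⟨k, f, h0, hk, hS, hF⟩ := ih
    refine ⟨k + 1, fun i => if i ≤ k then f i else z, by simp [h0], by simp, ?_, ?_⟩
    · intro i hi
      by_cases h : i ≤ k
      · simp only [h, if_true]; exact hS i h
      · simp only [h, if_false]; exact hstep.2.1
    · intro i hi
      by_cases h : i + 1 ≤ k
      · have h' : i ≤ k := by omega
        simp only [h, h', if_true]; exact hF i (by omega)
      · have h' : i = k := by omega
        subst h'
        simp only [le_refl, if_true, h, if_false, hk]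
        exact hstep.2.2

lemma exists_path {S : Lit n → Prop} {F : Finset (Finset (Lit n))} {y z : Lit n}
    (h : ∃ k f, f 0 = y ∧ f k = z ∧ WalkIn S F k f) :
    ∃ k f, f 0 = y ∧ f k = z ∧ PathIn S F k f := by
  obtain ⟨f, h0, hk, hW⟩ := Nat.find_spec h
  refine ⟨Nat.find h, f, h0, hk, hW, ?_⟩
  have key : ∀ i j, i < j → j ≤ Nat.find h → f i ≠ f j := by
    intro i j hij hj heq
    have hlt : Nat.find h - (j - i) < Nat.find h := by omega
    apply Nat.find_min h hlt
    refine ⟨fun t => if t ≤ i then f t else f (t + (j - i)), by simp [h0], ?_, ?_, ?_⟩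
    · by_cases hc : Nat.find h - (j - i) ≤ i
      · have : j = Nat.find h := by omega
        have h2 : Nat.find h - (j - i) = i := by omega
        simp only [h2, le_refl, if_true]
        rw [heq, this, hk]
      · simp only [hc, if_false]
        rw [show Nat.find h - (j - i) + (j - i) = Nat.find h by omega, hk]
    · intro t ht
      by_cases hc : t ≤ i
      · simp only [hc, if_true]; exact hW.1 t (by omega)
      · simp only [hc, if_false]; exact hW.1 _ (by omega)
    · intro t ht
      by_cases hc : t + 1 ≤ i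
      · have hc' : t ≤ i := by omega
        simp only [hc, hc', if_true]; exact hW.2 t (by omega)
      · by_cases hc' : t ≤ i
        · have : t = i := by omega
          subst this
          simp only [le_refl, if_true, hc, if_false]
          rw [heq, show t + 1 + (j - t) = j + 1 by omega]
          exact hW.2 j (by omega)
        · simp only [hc, hc', if_false]
          rw [show t + 1 + (j - i) = t + (j - i) + 1 by omega]
          exact hW.2 _ (by omega)
  intro i hi j hj heq
  rcases lt_trichotomy i j with h' | h' | h'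
  · exact absurd heq (key i j h' hj)
  · exact h'
  · exact absurd heq.symm (key j i h' hi)

lemma bool_ne {x y : Bool} (h : ¬ x = y) : x = !y := by
  revert h; cases x <;> cases y <;> simp

lemma bool_ne' {x y : Bool} (h : ¬ x = !y) : x = y := by
  revert h; cases x <;> cases y <;> simp

theorem uniq_struct (F : Finset (Finset (Lit n))) (hF : ∀ c ∈ F, Valid c) (hU : HasUniq F) :
    ∃ S : Lit n → Prop, Consistent S ∧ (∃ x x', S x ∧ S x' ∧ x ≠ x' ∧ ({x, x'} : Finset (Lit n)) ∈ F) ∧
      ∀ y z, S y → S z → ∃ k f, f 0 = y ∧ f k = z ∧ PathIn S F k f := by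
  obtain ⟨H, hHF, ⟨c₀, hc₀⟩, a, ha, hu⟩ := hU
  -- true literals on the variables of `H`
  set P : Lit n → Prop := fun l => a l.1 = l.2 ∧ ∃ c ∈ H, ∃ l' ∈ c, l'.1 = l.1 with hP
  set step : Lit n → Lit n → Prop := fun u v => P u ∧ P v ∧ arc u v ∈ H with hstep
  set Anc : Lit n → Lit n → Prop := fun x y => P y ∧ Relation.ReflTransGen step y x with hAnc
  have hex : ∃ x₀, P x₀ ∧ ∀ x, P x → (univ.filter (Anc x₀)).card ≤ (univ.filter (Anc x)).card := by
    have hne : (univ.filter P).Nonempty := by
      obtain ⟨l, hl, hal⟩ := ha c₀ hc₀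
      exact ⟨l, by simp only [mem_filter, mem_univ, true_and]; exact ⟨hal, c₀, hc₀, l, hl, rfl⟩⟩
    obtain ⟨x₀, hx₀, hmin⟩ := Finset.exists_min_image (univ.filter P)
      (fun x => (univ.filter (Anc x)).card) hne
    simp only [mem_filter, mem_univ, true_and] at hx₀ hmin
    exact ⟨x₀, hx₀, fun x hx => hmin x hx⟩
  obtain ⟨x₀, hx₀, hmin⟩ := hex
  set S : Lit n → Prop := Anc x₀ with hS
  have hSx₀ : S x₀ := ⟨hx₀, Relation.ReflTransGen.refl⟩
  -- `S` is strongly connected
  have hback : ∀ y, S y → Relation.ReflTransGen step x₀ y := by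
    intro y hy
    have hsub : univ.filter (Anc y) ⊆ univ.filter (Anc x₀) := by
      intro z hz
      simp only [mem_filter, mem_univ, true_and] at hz ⊢
      exact ⟨hz.1, hz.2.trans hy.2⟩
    have heq := Finset.eq_of_subset_of_card_le hsub (hmin y hy.1)
    have : x₀ ∈ univ.filter (Anc y) := by
      rw [heq]; simp only [mem_filter, mem_univ, true_and]; exact hSx₀
    simp only [mem_filter, mem_univ, true_and] at this
    exact this.2
  have hpred : ∀ u v, S v → step u v → S u := by
    intro u v hv huv
    exact ⟨huv.1, Relation.ReflTransGen.head huv hv.2⟩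
  have hconn : ∀ y z, S y → S z → Relation.ReflTransGen (fun u v => S u ∧ S v ∧ arc u v ∈ F) y z := by
    intro y z hy hz
    have h1 : Relation.ReflTransGen step y z := hy.2.trans (hback z hz)
    induction h1 using Relation.ReflTransGen.head_induction_on with
    | refl => exact Relation.ReflTransGen.refl
    | @head u v huv hvz ih =>
      have hv : S v := ⟨huv.2.1, hvz.trans hz.2⟩
      exact Relation.ReflTransGen.head ⟨hy, hv, hHF huv.2.2⟩ (ih hv)
  refine ⟨S, ?_, ?_, fun y z hy hz => exists_path (exists_walk hy (hconn y z hy hz))⟩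
  · intro l hl hl'
    have h1 := hl.1.1
    have h2 := hl'.1.1
    simp only [neg_fst, neg_snd] at h2
    rw [h1] at h2
    cases hb : l.2 <;> rw [hb] at h2 <;> simp at h2
  · -- flip `S`
    set b : Fin n → Bool := fun i => if S (i, a i) then !(a i) else a i with hb
    have hbS : ∀ l : Lit n, P l → (b l.1 = l.2 ↔ ¬ S l) := by
      intro l hl
      have h1 : a l.1 = l.2 := hl.1
      have h2 : ((l.1, a l.1) : Lit n) = l := by rw [h1]
      simp only [hb]
      rw [h2]
      by_cases h : S l
      · simp only [h, if_true, not_true, iff_false]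
        rw [h1]; cases l.2 <;> simp
      · simp only [h, if_false, not_false_iff, iff_true]
        exact h1
    have hnot : ¬ ∀ c ∈ H, ∃ l ∈ c, b l.1 = l.2 := by
      intro hall
      have h1 := hu b hall x₀.1 hx₀.2
      have h2 := (hbS x₀ hx₀)
      rw [h1] at h2
      exact (h2.1 hx₀.1) hSx₀
    push Not at hnot
    obtain ⟨c, hc, hcb⟩ := hnot
    obtain ⟨l, hl, hal⟩ := ha c hc
    have hPl : P l := ⟨hal, c, hc, l, hl, rfl⟩
    have hSl : S l := by
      by_contra h
      exact hcb l hl ((hbS l hPl).2 h)
    obtain ⟨u, v, huv, hcuv⟩ := (hF c (hHF hc)).exists_pair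
    -- the other literal
    obtain ⟨l', hl'1, hl'c⟩ : ∃ l' : Lit n, l.1 ≠ l'.1 ∧ c = {l, l'} := by
      rw [hcuv] at hl
      simp only [Finset.mem_insert, Finset.mem_singleton] at hl
      rcases hl with rfl | rfl
      · exact ⟨v, huv, hcuv⟩
      · exact ⟨u, huv.symm, by rw [hcuv, Finset.pair_comm]⟩
    have hl'mem : l' ∈ c := by rw [hl'c]; simp
    by_cases hal' : a l'.1 = l'.2
    · have hPl' : P l' := ⟨hal', c, hc, l', hl'mem, rfl⟩
      have hSl' : S l' := by
        by_contra h
        exact hcb l' hl'mem ((hbS l' hPl').2 h)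
      exact ⟨l, l', hSl, hSl', fun h => hl'1 (by rw [h]), by rw [← hl'c]; exact hHF hc⟩
    · exfalso
      have hPn : P (neg l') := by
        refine ⟨?_, c, hc, l', hl'mem, rfl⟩
        rw [neg_fst, neg_snd]
        exact bool_ne hal'
      have hstep' : step (neg l') l := by
        refine ⟨hPn, hPl, ?_⟩
        have : arc (neg l') l = c := by
          unfold arc
          rw [neg_neg, hl'c, Finset.pair_comm]
        rw [this]; exact hc
      have hSn : S (neg l') := hpred _ _ hSl hstep'
      have h3 := (hbS _ hPn).not.2 (not_not.2 hSn)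
      apply hcb l' hl'mem
      rw [neg_fst, neg_snd] at h3
      exact bool_ne' h3

end Pool.Agent.Helper96.TwoSat
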