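import Mathlib

/-!
# Weighted sums over walks which may reuse the steps of a given path
-/

set_option autoImplicit false
set_option linter.unusedSectionVars false

open Finset
open scoped Classical

namespace Pool.Agent.Helper96.TwoSat

variable {V : Type*} [Fintype V]

/-- `(u, v)` is a step of the path `b 0, ..., b m` -/
def IsStep (b : ℕ → V) (m : ℕ) (u v : V) : Prop := ∃ i, i < m ∧ u = b i ∧ v = b (i + 1)

/-- the weight of a step: `1` for the steps of the path, `p` for the others -/
noncomputable def wt (b : ℕ → V) (m : ℕ) (p : ℝ) (u v : V) : ℝ :=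
  if IsStep b m u v then 1 else p

/-- an upper bound of the weight -/
noncomputable def wt' (b : ℕ → V) (m : ℕ) (p : ℝ) (u v : V) : ℝ :=
  p + if IsStep b m u v then 1 else 0

/-- the total weight of the walks of length `q` from `b m` to `v` -/
noncomputable def rw (b : ℕ → V) (m : ℕ) (p : ℝ) : ℕ → V → ℝ
  | 0, v => if v = b m then 1 else 0
  | q + 1, v => ∑ u, rw b m p q u * wt' b m p u v

variable {b : ℕ → V} {m : ℕ} {p : ℝ}

lemma wt_le_wt' (hp : 0 ≤ p) (u v : V) : wt b m p u v ≤ wt' b m p u v := by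
  unfold wt wt'
  split_ifs <;> linarith

lemma wt'_nonneg (hp : 0 ≤ p) (u v : V) : 0 ≤ wt' b m p u v := by
  unfold wt'
  split_ifs <;> linarith

lemma wt_nonneg (hp : 0 ≤ p) (u v : V) : 0 ≤ wt b m p u v := by
  unfold wt
  split_ifs <;> linarith

lemma rw_nonneg (hp : 0 ≤ p) (q : ℕ) (v : V) : 0 ≤ rw b m p q v := by
  induction q generalizing v with
  | zero => unfold rw; split_ifs <;> norm_num
  | succ q ih =>
    unfold rw
    exact Finset.sum_nonneg fun u _ => mul_nonneg (ih u) (wt'_nonneg hp u v)

/-- the sum over all walks -/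
lemma sum_walks (q : ℕ) (v : V) :
    ∑ g : Fin (q + 1) → V, (if g 0 = b m ∧ g (Fin.last q) = v then
      ∏ j : Fin q, wt' b m p (g j.castSucc) (g j.succ) else 0) = rw b m p q v := by
  induction q generalizing v with
  | zero =>
    unfold rw
    have e := (Equiv.funUnique (Fin 1) V).symm.sum_comp (fun g : Fin 1 → V =>
      (if g 0 = b m ∧ g (Fin.last 0) = v then
      ∏ j : Fin 0, wt' b m p (g j.castSucc) (g j.succ) else 0))
    rw [← e]
    simp only [Equiv.funUnique_symm_apply, uniqueElim_const, Finset.univ_eq_empty,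
      Finset.prod_empty]
    by_cases h : v = b m
    · subst h
      simp
    · rw [if_neg h]
      apply Finset.sum_eq_zero
      intro x _
      rw [if_neg]
      rintro ⟨h1, h2⟩
      exact h (h2.symm.trans h1)
  | succ q ih =>
    have e := (Fin.snocEquiv (fun _ : Fin (q + 2) => V)).sum_comp (fun g : Fin (q + 2) → V =>
      (if g 0 = b m ∧ g (Fin.last (q + 1)) = v then
      ∏ j : Fin (q + 1), wt' b m p (g j.castSucc) (g j.succ) else 0))
    rw [← e]
    rw [Fintype.sum_prod_type]
    simp only [Fin.snocEquiv_apply]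
    unfold rw
    have h1 : ∀ x : V, ∀ h : Fin (q + 1) → V,
        (if (Fin.snoc (α := fun _ => V) h x : Fin (q + 2) → V) 0 = b m ∧
          (Fin.snoc (α := fun _ => V) h x : Fin (q + 2) → V) (Fin.last (q + 1)) = v then
          ∏ j : Fin (q + 1), wt' b m p ((Fin.snoc (α := fun _ => V) h x : Fin (q + 2) → V) j.castSucc)
            ((Fin.snoc (α := fun _ => V) h x : Fin (q + 2) → V) j.succ) else 0) =
        if x = v then (∑ u, if h 0 = b m ∧ h (Fin.last q) = u then
          (∏ j : Fin q, wt' b m p (h j.castSucc) (h j.succ)) * wt' b m p u v else 0) else 0 := by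
      intro x h
      have h0 : (Fin.snoc (α := fun _ => V) h x : Fin (q + 2) → V) 0 = h 0 := by
        have : (0 : Fin (q + 2)) = (0 : Fin (q + 1)).castSucc := rfl
        rw [this, Fin.snoc_castSucc]
      rw [h0, Fin.snoc_last, Fin.prod_univ_castSucc]
      have h2 : ∀ j : Fin q, (Fin.snoc (α := fun _ => V) h x : Fin (q + 2) → V) j.castSucc.castSucc
          = h j.castSucc := fun j => Fin.snoc_castSucc _ _ _
      have h3 : ∀ j : Fin q, (Fin.snoc (α := fun _ => V) h x : Fin (q + 2) → V) j.castSucc.succ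
          = h j.succ := fun j => by
        rw [← Fin.castSucc_succ]
        exact Fin.snoc_castSucc (α := fun _ => V) _ _ _
      have h4 : (Fin.snoc (α := fun _ => V) h x : Fin (q + 2) → V) (Fin.last q).castSucc =
          h (Fin.last q) := Fin.snoc_castSucc _ _ _
      have h5 : (Fin.snoc (α := fun _ => V) h x : Fin (q + 2) → V) (Fin.last q).succ = x := by
        rw [Fin.succ_last, Fin.snoc_last]
      simp only [h2, h3, h4, h5]
      by_cases hx : x = v
      · subst hx
        by_cases hh : h 0 = b m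
        · simp [hh]
        · simp [hh]
      · simp [hx]
    simp only [h1]
    rw [Finset.sum_comm]
    simp only [Finset.sum_ite_eq', Finset.mem_univ, if_true]
    rw [Finset.sum_comm]
    apply Finset.sum_congr rfl
    intro u _
    rw [← ih u, Finset.sum_mul]
    apply Finset.sum_congr rfl
    intro h _
    split_ifs <;> simp

/-- the total weight at time `q` -/
noncomputable def sw (b : ℕ → V) (m : ℕ) (p : ℝ) (q : ℕ) : ℝ := ∑ v, rw b m p q v

lemma rw_succ (q : ℕ) (v : V) : rw b m p (q + 1) v =
    p * sw b m p q + ∑ u, if IsStep b m u v then rw b m p q u else 0 := by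
  show ∑ u, rw b m p q u * wt' b m p u v = _
  unfold sw wt'
  rw [Finset.mul_sum, ← Finset.sum_add_distrib]
  apply Finset.sum_congr rfl
  intro u _
  split_ifs <;> ring

lemma rw_succ_zero (hb : ∀ i ≤ m, ∀ j ≤ m, b i = b j → i = j) (q : ℕ) :
    rw b m p (q + 1) (b 0) = p * sw b m p q := by
  rw [rw_succ, add_eq_left]
  apply Finset.sum_eq_zero
  intro u _
  rw [if_neg]
  rintro ⟨i, hi, -, h⟩
  have := hb 0 (Nat.zero_le _) (i + 1) hi h
  omega

lemma rw_succ_succ (hb : ∀ i ≤ m, ∀ j ≤ m, b i = b j → i = j) (q : ℕ) {i : ℕ} (hi : i < m) :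
    rw b m p (q + 1) (b (i + 1)) = p * sw b m p q + rw b m p q (b i) := by
  rw [rw_succ, add_right_inj]
  rw [Finset.sum_eq_single (b i)]
  · rw [if_pos ⟨i, hi, rfl, rfl⟩]
  · intro u _ hu
    rw [if_neg]
    rintro ⟨j, hj, h1, h2⟩
    have := hb (i + 1) hi (j + 1) hj h2
    have : i = j := by omega
    subst this
    exact hu h1
  · intro h
    exact absurd (Finset.mem_univ _) h

lemma sw_zero : sw b m p 0 = 1 := by
  unfold sw rw
  simp

lemma sw_succ (hb : ∀ i ≤ m, ∀ j ≤ m, b i = b j → i = j) (q : ℕ) :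
    sw b m p (q + 1) = Fintype.card V * p * sw b m p q + ∑ i ∈ range m, rw b m p q (b i) := by
  conv_lhs => unfold sw
  simp only [rw_succ]
  rw [Finset.sum_add_distrib, Finset.sum_const, card_univ, nsmul_eq_mul, mul_assoc, add_right_inj]
  rw [Finset.sum_comm]
  have h1 : ∀ u : V, (∑ v, if IsStep b m u v then rw b m p q u else 0) =
      ∑ i ∈ range m, if u = b i then rw b m p q (b i) else 0 := by
    intro u
    by_cases hu : ∃ i, i < m ∧ u = b i
    · obtain ⟨i, hi, rfl⟩ := hu
      rw [Finset.sum_eq_single (b (i + 1)), if_pos ⟨i, hi, rfl, rfl⟩,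
        Finset.sum_eq_single i, if_pos rfl]
      · intro j hj hji
        rw [if_neg]
        intro h
        exact hji (hb i hi.le j (Finset.mem_range.1 hj).le h).symm
      · intro h
        exact absurd (Finset.mem_range.2 hi) h
      · intro v _ hv
        rw [if_neg]
        rintro ⟨j, hj, h1, h2⟩
        have := hb i hi.le j hj.le h1
        subst this
        exact hv h2
      · intro h
        exact absurd (Finset.mem_univ _) h
    · push Not at hu
      rw [Finset.sum_eq_zero, Finset.sum_eq_zero]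
      · intro i hi
        rw [if_neg (hu i (Finset.mem_range.1 hi))]
      · intro v _
        rw [if_neg]
        rintro ⟨j, hj, h1, -⟩
        exact hu j hj h1
  simp only [h1]
  rw [Finset.sum_comm]
  apply Finset.sum_congr rfl
  intro i _
  simp

lemma sw_nonneg (hp : 0 ≤ p) (q : ℕ) : 0 ≤ sw b m p q :=
  Finset.sum_nonneg fun v _ => rw_nonneg hp q v

lemma sum_rw_le (hp : 0 ≤ p) (hb : ∀ i ≤ m, ∀ j ≤ m, b i = b j → i = j) (Z : ℕ) (i : ℕ)
    (hi : i < m) :
    ∑ q ∈ range (Z + 1), rw b m p q (b i) ≤ p * (i + 1) * ∑ q ∈ range Z, sw b m p q := by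
  induction i with
  | zero =>
    rw [Finset.sum_range_succ']
    have h0 : rw b m p 0 (b 0) = 0 := by
      unfold rw
      rw [if_neg]
      intro h
      have := hb 0 (Nat.zero_le _) m le_rfl h
      omega
    rw [h0, add_zero]
    simp only [rw_succ_zero hb]
    rw [← Finset.mul_sum]
    simp
  | succ i ih =>
    have ih' := ih (by omega)
    rw [Finset.sum_range_succ']
    have h0 : rw b m p 0 (b (i + 1)) = 0 := by
      unfold rw
      rw [if_neg]
      intro h
      have := hb (i + 1) hi.le m le_rfl h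
      omega
    rw [h0, add_zero]
    simp only [rw_succ_succ hb _ (show i < m by omega)]
    rw [Finset.sum_add_distrib, ← Finset.mul_sum]
    have h1 : ∑ q ∈ range Z, rw b m p q (b i) ≤ ∑ q ∈ range (Z + 1), rw b m p q (b i) := by
      rw [Finset.sum_range_succ]
      linarith [rw_nonneg (b := b) (m := m) hp Z (b i)]
    push_cast
    nlinarith [ih']

/-- the bound of the total weight of all walks -/
theorem sum_sw_le (hp : 0 ≤ p) (hb : ∀ i ≤ m, ∀ j ≤ m, b i = b j → i = j)
    (ρ : ℝ) (hρ : Fintype.card V * p + p * (m * (m + 1) / 2) ≤ ρ) (hρ1 : ρ < 1) (Z : ℕ) :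
    ∑ q ∈ range Z, sw b m p q ≤ 1 / (1 - ρ) := by
  have hρ0 : 0 ≤ ρ := le_trans (by positivity) hρ
  have h1ρ : 0 < 1 - ρ := by linarith
  induction Z with
  | zero => simp; linarith
  | succ Z ih =>
    rw [Finset.sum_range_succ', sw_zero]
    simp only [sw_succ hb]
    rw [Finset.sum_add_distrib, ← Finset.mul_sum, Finset.sum_comm]
    have h2 : ∑ i ∈ range m, ∑ q ∈ range Z, rw b m p q (b i) ≤
        p * (m * (m + 1) / 2) * ∑ q ∈ range Z, sw b m p q := by
      calc ∑ i ∈ range m, ∑ q ∈ range Z, rw b m p q (b i)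
          ≤ ∑ i ∈ range m, p * (i + 1) * ∑ q ∈ range Z, sw b m p q := by
            apply Finset.sum_le_sum
            intro i hi
            refine le_trans ?_ (sum_rw_le hp hb Z i (Finset.mem_range.1 hi))
            rw [Finset.sum_range_succ]
            linarith [rw_nonneg (b := b) (m := m) hp Z (b i)]
        _ = p * (m * (m + 1) / 2) * ∑ q ∈ range Z, sw b m p q := by
            rw [← Finset.sum_mul, ← Finset.mul_sum]
            congr 2
            rw [Finset.sum_add_distrib]
            have : ∑ i ∈ range m, (i : ℝ) = m * (m - 1) / 2 := by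
              have h := Finset.sum_range_id_mul_two m
              have h' : (∑ i ∈ range m, (i : ℝ)) * 2 = m * (m - 1) := by
                rcases Nat.eq_zero_or_pos m with rfl | hm
                · simp
                · have : ((∑ i ∈ range m, i : ℕ) : ℝ) * 2 = ((m * (m - 1) : ℕ) : ℝ) := by
                    exact_mod_cast h
                  rw [Nat.cast_mul, Nat.cast_sub hm] at this
                  push_cast at this
                  exact this
              linarith
            rw [this]
            simp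
            ring
    have hS : 0 ≤ ∑ q ∈ range Z, sw b m p q := Finset.sum_nonneg fun q _ => sw_nonneg hp q
    calc Fintype.card V * p * ∑ q ∈ range Z, sw b m p q +
          ∑ i ∈ range m, ∑ q ∈ range Z, rw b m p q (b i) + 1
        ≤ (Fintype.card V * p + p * (m * (m + 1) / 2)) * ∑ q ∈ range Z, sw b m p q + 1 := by
          linarith
      _ ≤ ρ * (1 / (1 - ρ)) + 1 := by
          have := mul_le_mul hρ ih hS hρ0
          linarith
      _ = 1 / (1 - ρ) := by
          field_simp
          ring

/-- the bound of the total weight of the walks from `b m` to `b 0` -/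
theorem sum_rw_zero_le (hp : 0 ≤ p) (hb : ∀ i ≤ m, ∀ j ≤ m, b i = b j → i = j)
    (ρ : ℝ) (hρ : Fintype.card V * p + p * (m * (m + 1) / 2) ≤ ρ) (hρ1 : ρ < 1) (Z : ℕ) :
    ∑ q ∈ range Z, rw b m p (q + 1) (b 0) ≤ p / (1 - ρ) := by
  simp only [rw_succ_zero hb]
  rw [← Finset.mul_sum]
  calc p * ∑ q ∈ range Z, sw b m p q ≤ p * (1 / (1 - ρ)) :=
        mul_le_mul_of_nonneg_left (sum_sw_le hp hb ρ hρ hρ1 Z) hp
    _ = p / (1 - ρ) := by ring

/-- the form in which the bound is used -/
theorem sum_walk_bound (hp : 0 ≤ p) (hb : ∀ i ≤ m, ∀ j ≤ m, b i = b j → i = j)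
    (ρ : ℝ) (hρ : Fintype.card V * p + p * (m * (m + 1) / 2) ≤ ρ) (hρ1 : ρ < 1) (Z : ℕ) (C : ℝ)
    (hC : 0 ≤ C) (Φ : (q : ℕ) → (Fin (q + 2) → V) → ℝ)
    (h1 : ∀ q, ∀ g : Fin (q + 2) → V, g 0 = b m → g (Fin.last (q + 1)) = b 0 →
      Φ q g ≤ C * ∏ j : Fin (q + 1), wt b m p (g j.castSucc) (g j.succ))
    (h2 : ∀ q, ∀ g : Fin (q + 2) → V, ¬ (g 0 = b m ∧ g (Fin.last (q + 1)) = b 0) → Φ q g ≤ 0) :
    ∑ q ∈ range Z, ∑ g, Φ q g ≤ C * (p / (1 - ρ)) := by
  calc ∑ q ∈ range Z, ∑ g, Φ q g ≤ ∑ q ∈ range Z, C * rw b m p (q + 1) (b 0) := by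
        apply Finset.sum_le_sum
        intro q _
        rw [← sum_walks, Finset.mul_sum]
        apply Finset.sum_le_sum
        intro g _
        by_cases hg : g 0 = b m ∧ g (Fin.last (q + 1)) = b 0
        · rw [if_pos hg]
          refine (h1 q g hg.1 hg.2).trans ?_
          apply mul_le_mul_of_nonneg_left _ hC
          apply Finset.prod_le_prod
          · intro j _
            exact wt_nonneg hp _ _
          · intro j _
            exact wt_le_wt' hp _ _
        · rw [if_neg hg, mul_zero]
          exact h2 q g hg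
    _ = C * ∑ q ∈ range Z, rw b m p (q + 1) (b 0) := by rw [Finset.mul_sum]
    _ ≤ C * (p / (1 - ρ)) :=
        mul_le_mul_of_nonneg_left (sum_rw_zero_le hp hb ρ hρ hρ1 Z) hC

end Pool.Agent.Helper96.TwoSat
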