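import Mathlib
import Pool.Agent.Helper96.TwoSat.Base
import Pool.Agent.Helper96.TwoSat.Walk
import Pool.Agent.Helper96.TwoSat.Uniq

/-!
# The probability of a uniquely satisfiable subformula
-/

set_option autoImplicit false
set_option linter.unusedSectionVars false

open Finset
open scoped Classical

namespace Pool.Agent.Helper96.TwoSat

variable {n : ℕ}

/-- the clauses of the walk `f 0, ..., f k` -/
noncomputable def pc (f : ℕ → Lit n) (k : ℕ) : Finset (Finset (Lit n)) :=
  (range k).image (fun i => arc (f i) (f (i + 1)))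

/-- the clauses of the walk `g 0, ..., g q` -/
noncomputable def pcF {q : ℕ} (g : Fin (q + 1) → Lit n) : Finset (Finset (Lit n)) :=
  univ.image (fun j : Fin q => arc (g j.castSucc) (g j.succ))

lemma arc_inj {S : Lit n → Prop} (hS : Consistent S) {u v u' v' : Lit n} (hu : S u)
    (hv' : S v') (h : arc u v = arc u' v') : u = u' ∧ v = v' := by
  rcases arc_eq_iff.1 h with h | ⟨h1, h2⟩
  · exact h
  · exact absurd (h1 ▸ hu) (hS v' hv')

/-- `X` is a set of clauses which are never implications inside of a consistent set containing the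
literals `f 0, ..., f t` -/
def Extra (f : ℕ → Lit n) (t : ℕ) (X : Finset (Finset (Lit n))) : Prop :=
  ∀ S : Lit n → Prop, Consistent S → (∀ i ≤ t, S (f i)) → ∀ c ∈ X, ∀ u v, S u → S v → c ≠ arc u v

lemma pow_card_le {S : Lit n → Prop} (hS : Consistent S) {f : ℕ → Lit n} {t : ℕ}
    (hf : ∀ i ≤ t, S (f i)) (hinj : ∀ i ≤ t, ∀ j ≤ t, f i = f j → i = j)
    {q : ℕ} {g : Fin (q + 1) → Lit n} (hg : ∀ i, S (g i)) (hginj : Function.Injective g)
    {X : Finset (Finset (Lit n))} (hX : Extra f t X) {p : ℝ} (hp0 : 0 ≤ p) (hp1 : p ≤ 1) :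
    p ^ (pc f t ∪ pcF g ∪ X).card ≤
      p ^ (t + X.card) * ∏ j : Fin q, wt f t p (g j.castSucc) (g j.succ) := by
  set N : Finset (Fin q) := univ.filter fun j => ¬ IsStep f t (g j.castSucc) (g j.succ) with hN
  have hprod : ∏ j : Fin q, wt f t p (g j.castSucc) (g j.succ) = p ^ N.card := by
    unfold wt
    rw [Finset.prod_ite]
    simp [hN]
  rw [hprod, ← pow_add]
  apply pow_le_pow_of_le_one hp0 hp1
  set B : Finset (Finset (Lit n)) := N.image (fun j => arc (g j.castSucc) (g j.succ)) with hB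
  have c1 : (pc f t).card = t := by
    unfold pc
    rw [Finset.card_image_of_injOn, card_range]
    intro i hi j hj h
    simp only [coe_range, Set.mem_Iio] at hi hj
    have := arc_inj hS (hf i hi.le) (hf (j + 1) hj) h
    exact hinj i hi.le j hj.le this.1
  have c2 : B.card = N.card := by
    rw [hB, Finset.card_image_of_injOn]
    intro i _ j _ h
    have := arc_inj hS (hg _) (hg _) h
    exact Fin.castSucc_injective _ (hginj this.1)
  have d1 : Disjoint (pc f t) B := by
    rw [Finset.disjoint_left]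
    intro c hc hc'
    unfold pc at hc
    rw [Finset.mem_image] at hc
    rw [hB, Finset.mem_image] at hc'
    obtain ⟨i, hi, rfl⟩ := hc
    obtain ⟨j, hj, hij⟩ := hc'
    rw [Finset.mem_range] at hi
    have := arc_inj hS (hg _) (hf (i + 1) hi) hij
    rw [hN, Finset.mem_filter] at hj
    exact hj.2 ⟨i, hi, this.1, this.2⟩
  have d2 : Disjoint (pc f t ∪ B) X := by
    rw [Finset.disjoint_left]
    intro c hc hc'
    rw [Finset.mem_union] at hc
    rcases hc with hc | hc
    · unfold pc at hc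
      rw [Finset.mem_image] at hc
      obtain ⟨i, hi, rfl⟩ := hc
      rw [Finset.mem_range] at hi
      exact hX S hS hf _ hc' _ _ (hf i hi.le) (hf (i + 1) hi) rfl
    · rw [hB, Finset.mem_image] at hc
      obtain ⟨j, hj, rfl⟩ := hc
      exact hX S hS hf _ hc' _ _ (hg _) (hg _) rfl
  have hsub : (pc f t ∪ B) ∪ X ⊆ pc f t ∪ pcF g ∪ X := by
    apply Finset.union_subset_union_left
    apply Finset.union_subset_union_right
    rw [hB]
    unfold pcF
    exact Finset.image_subset_image (Finset.filter_subset _ _)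
  calc t + X.card + N.card = ((pc f t ∪ B) ∪ X).card := by
        rw [Finset.card_union_of_disjoint d2, Finset.card_union_of_disjoint d1, c1, c2]
        omega
    _ ≤ _ := Finset.card_le_card hsub

variable {Ω : Type*} [Fintype Ω]

/-- a path `f 0, ..., f t` together with a path from `f t` to `f 0` -/
def Loop (F : Finset (Finset (Lit n))) (f : ℕ → Lit n) (t : ℕ) (X : Finset (Finset (Lit n))) :
    Prop :=
  ∃ S : Lit n → Prop, Consistent S ∧ (∀ i ≤ t, S (f i)) ∧ pc f t ⊆ F ∧ X ⊆ F ∧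
    ∃ q g, g 0 = f t ∧ g q = f 0 ∧ PathIn S F q g

theorem loop_prob (F : Ω → Finset (Finset (Lit n))) {p : ℝ} (hp0 : 0 ≤ p) (hp1 : p ≤ 1)
    (hpr : ∀ A : Finset (Finset (Lit n)), pr (fun ω => A ⊆ F ω) ≤ p ^ A.card)
    (f : ℕ → Lit n) (t : ℕ) (ht : 1 ≤ t) (hinj : ∀ i ≤ t, ∀ j ≤ t, f i = f j → i = j)
    (X : Finset (Finset (Lit n))) (hX : Extra f t X)
    (ρ : ℝ) (hρ : (2 * n : ℝ) * p + p * (t * (t + 1) / 2) ≤ ρ) (hρ1 : ρ < 1) :
    pr (fun ω => Loop (F ω) f t X) ≤ p ^ (t + X.card) * (p / (1 - ρ)) := by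
  set Good : (q : ℕ) → (Fin (q + 2) → Lit n) → Prop := fun q g =>
    (g 0 = f t ∧ g (Fin.last (q + 1)) = f 0) ∧ Function.Injective g ∧
      ∃ S : Lit n → Prop, Consistent S ∧ (∀ i ≤ t, S (f i)) ∧ ∀ i, S (g i) with hGood
  have hcard : (Fintype.card (Lit n) : ℝ) = 2 * n := by
    simp [Lit]; ring
  have step1 : pr (fun ω => Loop (F ω) f t X) ≤ ∑ q ∈ range (2 * n),
      pr (fun ω => ∃ g : Fin (q + 2) → Lit n, Good q g ∧ pc f t ∪ pcF g ∪ X ⊆ F ω) := by
    apply pr_le_sum
    rintro ω ⟨S, hS, hfS, hpc, hXF, q, g, hg0, hgq, hP⟩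
    have hq : q ≠ 0 := by
      rintro rfl
      have := hinj t le_rfl 0 (Nat.zero_le _) (by rw [← hg0, hgq])
      omega
    obtain ⟨q, rfl⟩ : ∃ q', q = q' + 1 := ⟨q - 1, by omega⟩
    set g' : Fin (q + 2) → Lit n := fun i => g i with hg'
    have hg'inj : Function.Injective g' := by
      intro i j hij
      exact Fin.ext (hP.2 i (by omega) j (by omega) hij)
    refine ⟨q, ?_, g', ⟨⟨hg0, hgq⟩, hg'inj, S, hS, hfS, fun i => hP.1.1 i (by omega)⟩, ?_⟩
    · rw [Finset.mem_range]
      have := Fintype.card_le_of_injective g' hg'inj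
      simp [Lit] at this
      omega
    · apply Finset.union_subset (Finset.union_subset hpc _) hXF
      intro c hc
      unfold pcF at hc
      rw [Finset.mem_image] at hc
      obtain ⟨j, -, rfl⟩ := hc
      exact hP.1.2 j j.2
  refine step1.trans ?_
  refine (Finset.sum_le_sum (fun q _ => pr_le_sum (univ : Finset (Fin (q + 2) → Lit n)) _
    (fun g ω => Good q g ∧ pc f t ∪ pcF g ∪ X ⊆ F ω)
    (fun ω ⟨g, h1, h2⟩ => ⟨g, Finset.mem_univ _, h1, h2⟩))).trans ?_
  apply sum_walk_bound hp0 hinj ρ (by rw [hcard]; exact hρ) hρ1 _ _ (by positivity)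
    (fun q g => pr (fun ω => Good q g ∧ pc f t ∪ pcF g ∪ X ⊆ F ω))
  · intro q g h0 hl
    by_cases hg : Good q g
    · obtain ⟨-, hgi, S, hS, hfS, hgS⟩ := hg
      refine le_trans ?_ (pow_card_le hS hfS hinj hgS hgi hX hp0 hp1)
      refine le_trans (pr_mono fun ω hω => hω.2) (hpr _)
    · have : pr (fun ω => Good q g ∧ pc f t ∪ pcF g ∪ X ⊆ F ω) ≤ 0 := by
        refine (pr_mono (R := fun _ : Ω => False) fun ω hω => hg hω.1).trans ?_
        unfold pr; simp
      refine this.trans ?_
      exact mul_nonneg (by positivity) (Finset.prod_nonneg fun j _ => wt_nonneg hp0 _ _)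
  · intro q g hg
    refine (pr_mono (R := fun _ : Ω => False) fun ω hω => hg hω.1.1).trans ?_
    unfold pr; simp

end Pool.Agent.Helper96.TwoSat
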