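import Mathlib
import Pool.Agent.Helper96.TwoSat.Base
import Pool.Agent.Helper96.TwoSat.UniqProb

/-!
# Contradictory dumbbells
-/

set_option autoImplicit false
set_option linter.unusedSectionVars false

open Finset
open scoped Classical

namespace Pool.Agent.Helper96.TwoSat

variable {n : ℕ}

/-- the sequence `¬ l_j, l_0, ..., l_{s-1}, ¬ l_i` -/
def dseq (s i j : ℕ) (l : ℕ → Lit n) (t : ℕ) : Lit n :=
  if t = 0 then neg (l j) else if t ≤ s then l (t - 1) else neg (l i)

/-- admissible parameters -/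
structure DB (s i j : ℕ) (l : ℕ → Lit n) : Prop where
  hj : 1 ≤ j
  hji : j ≤ i
  his : i + 2 ≤ s
  inj : ∀ a < s, ∀ b < s, (l a).1 = (l b).1 → a = b

/-- the clauses of the dumbbell -/
noncomputable def dcl (s i j : ℕ) (l : ℕ → Lit n) : Finset (Finset (Lit n)) :=
  pc (dseq s i j l) (s + 1)

lemma dseq_zero (s i j : ℕ) (l : ℕ → Lit n) : dseq s i j l 0 = neg (l j) := by simp [dseq]

lemma dseq_succ {s i j : ℕ} (l : ℕ → Lit n) {t : ℕ} (ht : t < s) :
    dseq s i j l (t + 1) = l t := by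
  unfold dseq
  rw [if_neg (by omega), if_pos (by omega)]
  simp

lemma dseq_last {s i j : ℕ} (l : ℕ → Lit n) : dseq s i j l (s + 1) = neg (l i) := by
  unfold dseq
  rw [if_neg (by omega), if_neg (by omega)]

/-- every literal of the sequence is on one of the variables -/
lemma dseq_var {s i j : ℕ} {l : ℕ → Lit n} (h : DB s i j l) (t : ℕ) :
    ∃ a < s, (dseq s i j l t).1 = (l a).1 := by
  have := h.hj
  have := h.hji
  have := h.his
  unfold dseq
  split_ifs with h1 h2
  · exact ⟨j, by omega, rfl⟩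
  · exact ⟨t - 1, by omega, rfl⟩
  · exact ⟨i, by omega, rfl⟩

lemma dseq_inj1 {s i j : ℕ} {l : ℕ → Lit n} (h : DB s i j l) {t t' : ℕ} (h1 : 1 ≤ t) (h2 : t ≤ s)
    (h3 : 1 ≤ t') (h4 : t' ≤ s) (h5 : (dseq s i j l t).1 = (dseq s i j l t').1) : t = t' := by
  obtain ⟨t, rfl⟩ : ∃ k, t = k + 1 := ⟨t - 1, by omega⟩
  obtain ⟨t', rfl⟩ : ∃ k, t' = k + 1 := ⟨t' - 1, by omega⟩
  rw [dseq_succ l (by omega), dseq_succ l (by omega)] at h5
  rw [h.inj t (by omega) t' (by omega) h5]

lemma dseq_ne_zero {s i j : ℕ} {l : ℕ → Lit n} (h : DB s i j l) {t : ℕ} (h1 : 1 ≤ t) (h2 : t ≤ s) :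
    dseq s i j l 0 ≠ dseq s i j l t := by
  have := h.hj
  have := h.hji
  have := h.his
  obtain ⟨t, rfl⟩ : ∃ k, t = k + 1 := ⟨t - 1, by omega⟩
  rw [dseq_zero, dseq_succ l (by omega)]
  intro h5
  have h6 : (l j).1 = (l t).1 := by rw [← h5]; rfl
  have := h.inj j (by omega) t (by omega) h6
  subst this
  exact neg_ne _ h5

lemma dseq_ne_last {s i j : ℕ} {l : ℕ → Lit n} (h : DB s i j l) {t : ℕ} (h1 : 1 ≤ t) (h2 : t ≤ s) :
    dseq s i j l t ≠ dseq s i j l (s + 1) := by
  have := h.hj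
  have := h.hji
  have := h.his
  obtain ⟨t, rfl⟩ : ∃ k, t = k + 1 := ⟨t - 1, by omega⟩
  rw [dseq_last, dseq_succ l (by omega)]
  intro h5
  have h6 : (l t).1 = (l i).1 := by rw [h5]; rfl
  have := h.inj t (by omega) i (by omega) h6
  subst this
  exact neg_ne _ h5.symm

/-- injectivity on `[0, s]` -/
lemma dseq_injA {s i j : ℕ} {l : ℕ → Lit n} (h : DB s i j l) {t t' : ℕ} (h2 : t ≤ s)
    (h4 : t' ≤ s) (h5 : dseq s i j l t = dseq s i j l t') : t = t' := by
  rcases Nat.eq_zero_or_pos t with rfl | ht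
  · rcases Nat.eq_zero_or_pos t' with rfl | ht'
    · rfl
    · exact absurd h5 (dseq_ne_zero h ht' h4)
  · rcases Nat.eq_zero_or_pos t' with rfl | ht'
    · exact absurd h5.symm (dseq_ne_zero h ht h2)
    · exact dseq_inj1 h ht h2 ht' h4 (by rw [h5])

/-- injectivity on `[1, s + 1]` -/
lemma dseq_injB {s i j : ℕ} {l : ℕ → Lit n} (h : DB s i j l) {t t' : ℕ} (h1 : t ≤ s)
    (h4 : t' ≤ s) (h5 : dseq s i j l (t + 1) = dseq s i j l (t' + 1)) : t = t' := by
  rcases Nat.lt_or_ge t s with ht | ht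
  · rcases Nat.lt_or_ge t' s with ht' | ht'
    · have := dseq_inj1 h (by omega) (show t + 1 ≤ s by omega) (by omega)
        (show t' + 1 ≤ s by omega) (by rw [h5])
      omega
    · have : t' = s := by omega
      subst this
      exact absurd h5 (dseq_ne_last h (by omega) (by omega))
  · have : t = s := by omega
    subst this
    rcases Nat.lt_or_ge t' t with ht' | ht'
    · exact absurd h5.symm (dseq_ne_last h (by omega) (by omega))
    · omega

lemma dseq_valid {s i j : ℕ} {l : ℕ → Lit n} (h : DB s i j l) {t : ℕ} (ht : t ≤ s) :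
    (dseq s i j l t).1 ≠ (dseq s i j l (t + 1)).1 := by
  have := h.hj
  have := h.hji
  have := h.his
  rcases Nat.eq_zero_or_pos t with rfl | ht0
  · rw [dseq_zero, dseq_succ l (by omega), neg_fst]
    intro h5
    have := h.inj _ (by omega) _ (by omega) h5
    omega
  · obtain ⟨t, rfl⟩ : ∃ k, t = k + 1 := ⟨t - 1, by omega⟩
    rw [dseq_succ l (by omega)]
    rcases Nat.lt_or_ge (t + 1) s with ht1 | ht1
    · rw [dseq_succ l ht1]
      intro h5
      have := h.inj _ (by omega) _ (by omega) h5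
      omega
    · have : t + 1 = s := by omega
      rw [this, dseq_last, neg_fst]
      intro h5
      have := h.inj _ (by omega) _ (by omega) h5
      omega

/-- the number of clauses of a walk whose inner vertices are on different variables -/
lemma card_pc {x : ℕ → Lit n} {r : ℕ}
    (h1 : ∀ t t', 1 ≤ t → t ≤ r → 1 ≤ t' → t' ≤ r → (x t).1 = (x t').1 → t = t')
    (h2 : ∀ t, 1 ≤ t → t ≤ r → x 0 ≠ x t) : (pc x (r + 1)).card = r + 1 := by
  unfold pc
  rw [Finset.card_image_of_injOn, card_range]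
  have key : ∀ a b, a < b → b ≤ r → arc (x a) (x (a + 1)) ≠ arc (x b) (x (b + 1)) := by
    intro a b hab hb h
    rcases arc_eq_iff.1 h with ⟨h3, -⟩ | ⟨-, h3⟩
    · rcases Nat.eq_zero_or_pos a with rfl | ha
      · exact h2 b (by omega) hb h3
      · have := h1 a b ha (by omega) (by omega) hb (by rw [h3])
        omega
    · have := h1 (a + 1) b (by omega) (by omega) (by omega) hb (by rw [h3]; rfl)
      rw [this] at h3
      exact neg_ne _ h3.symm
  intro a ha b hb h
  simp only [coe_range, Set.mem_Iio] at ha hb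
  rcases lt_trichotomy a b with h' | h' | h'
  · exact absurd h (key a b h' (by omega))
  · exact h'
  · exact absurd h.symm (key b a h' (by omega))

lemma card_dcl {s i j : ℕ} {l : ℕ → Lit n} (h : DB s i j l) : (dcl s i j l).card = s + 1 :=
  card_pc (fun _ _ h1 h2 h3 h4 h5 => dseq_inj1 h h1 h2 h3 h4 h5)
    (fun _ h1 h2 => dseq_ne_zero h h1 h2)

lemma mem_dcl {s i j : ℕ} {l : ℕ → Lit n} {c : Finset (Lit n)} :
    c ∈ dcl s i j l ↔ ∃ t ≤ s, c = arc (dseq s i j l t) (dseq s i j l (t + 1)) := by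
  unfold dcl pc
  rw [Finset.mem_image]
  constructor
  · rintro ⟨t, ht, rfl⟩
    exact ⟨t, by rw [Finset.mem_range] at ht; omega, rfl⟩
  · rintro ⟨t, ht, rfl⟩
    exact ⟨t, by rw [Finset.mem_range]; omega, rfl⟩

lemma dcl_var {s i j : ℕ} {l : ℕ → Lit n} (h : DB s i j l) {c : Finset (Lit n)}
    (hc : c ∈ dcl s i j l) {w : Lit n} (hw : w ∈ c) : ∃ a < s, w.1 = (l a).1 := by
  obtain ⟨t, ht, rfl⟩ := mem_dcl.1 hc
  unfold arc at hw
  simp only [Finset.mem_insert, Finset.mem_singleton] at hw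
  rcases hw with rfl | rfl
  · exact dseq_var h t
  · exact dseq_var h (t + 1)

/-- a formula with a dumbbell is not satisfiable -/
theorem not_sat {s i j : ℕ} {l : ℕ → Lit n} (h : DB s i j l) {F : Finset (Finset (Lit n))}
    (hF : dcl s i j l ⊆ F) : ¬ Sat F := by
  rintro ⟨a, ha⟩
  have h1 := h.hj
  have h2 := h.hji
  have h3 := h.his
  have step : ∀ t, t ≤ s → a (dseq s i j l t).1 = (dseq s i j l t).2 →
      a (dseq s i j l (t + 1)).1 = (dseq s i j l (t + 1)).2 := by
    intro t ht htr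
    obtain ⟨w, hw, haw⟩ := ha _ (hF (mem_dcl.2 ⟨t, ht, rfl⟩))
    unfold arc at hw
    simp only [Finset.mem_insert, Finset.mem_singleton] at hw
    rcases hw with rfl | rfl
    · rw [neg_fst, neg_snd, htr] at haw
      cases hb : (dseq s i j l t).2 <;> rw [hb] at haw <;> simp at haw
    · exact haw
  have prop : ∀ t t', t ≤ t' → t' ≤ s + 1 → a (dseq s i j l t).1 = (dseq s i j l t).2 →
      a (dseq s i j l t').1 = (dseq s i j l t').2 := by
    intro t t' htt'
    induction t', htt' using Nat.le_induction with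
    | base => exact fun _ h => h
    | succ k hk ih => exact fun hks hh => step k (by omega) (ih (by omega) hh)
  have hj : a (l j).1 = (l j).2 := by
    by_contra hc
    have h0 : a (dseq s i j l 0).1 = (dseq s i j l 0).2 := by
      rw [dseq_zero, neg_fst, neg_snd]
      exact bool_ne hc
    have := prop 0 (j + 1) (by omega) (by omega) h0
    rw [dseq_succ l (by omega)] at this
    exact hc this
  have h4 : a (dseq s i j l (j + 1)).1 = (dseq s i j l (j + 1)).2 := by
    rw [dseq_succ l (by omega)]; exact hj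
  have h5 := prop (j + 1) (i + 1) (by omega) (by omega) h4
  have h6 := prop (j + 1) (s + 1) (by omega) (by omega) h4
  rw [dseq_succ l (by omega)] at h5
  rw [dseq_last, neg_fst, neg_snd, h5] at h6
  cases hb : (l i).2 <;> rw [hb] at h6 <;> simp at h6

/-! ### out-neighbours -/

lemma out_cases {s i j : ℕ} {l : ℕ → Lit n} {w z : Lit n} (hz : arc w z ∈ dcl s i j l) :
    (∃ t ≤ s, w = dseq s i j l t ∧ z = dseq s i j l (t + 1)) ∨
    (∃ t ≤ s, w = neg (dseq s i j l (t + 1)) ∧ z = neg (dseq s i j l t)) := by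
  obtain ⟨t, ht, h⟩ := mem_dcl.1 hz
  rcases arc_eq_iff.1 h with ⟨h1, h2⟩ | ⟨h1, h2⟩
  · exact Or.inl ⟨t, ht, h1, h2⟩
  · exact Or.inr ⟨t, ht, h1, h2⟩

lemma fm_cases {s i j : ℕ} {l : ℕ → Lit n} (h : DB s i j l) {t t' : ℕ} (ht : t ≤ s) (ht' : t' ≤ s)
    (h1 : dseq s i j l t = neg (dseq s i j l (t' + 1))) :
    (t = 0 ∧ t' = j) ∨ (t = i + 1 ∧ t' = s) := by
  have g1 := h.hj
  have g2 := h.hji
  have g3 := h.his
  rcases Nat.eq_zero_or_pos t with rfl | h0
  · left
    refine ⟨rfl, ?_⟩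
    rw [dseq_zero] at h1
    have h2 := neg_inj h1
    rcases Nat.lt_or_ge t' s with h3 | h3
    · rw [dseq_succ l h3] at h2
      exact (h.inj j (by omega) t' h3 (by rw [h2])).symm
    · have : t' = s := by omega
      subst this
      rw [dseq_last] at h2
      have := h.inj j (by omega) i (by omega) (by rw [h2]; rfl)
      subst this
      exact absurd h2.symm (neg_ne _)
  · right
    obtain ⟨t, rfl⟩ : ∃ k, t = k + 1 := ⟨t - 1, by omega⟩
    rw [dseq_succ l (by omega)] at h1
    rcases Nat.lt_or_ge t' s with h3 | h3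
    · rw [dseq_succ l h3] at h1
      have := h.inj t (by omega) t' h3 (by rw [h1]; rfl)
      subst this
      exact absurd h1.symm (neg_ne _)
    · have : t' = s := by omega
      subst this
      rw [dseq_last, neg_neg] at h1
      have := h.inj t (by omega) i (by omega) (by rw [h1])
      exact ⟨by omega, rfl⟩

/-- the out-neighbour is unique except at two literals -/
lemma out_unique {s i j : ℕ} {l : ℕ → Lit n} (h : DB s i j l) {w z z' : Lit n}
    (hz : arc w z ∈ dcl s i j l) (hz' : arc w z' ∈ dcl s i j l)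
    (h1 : w ≠ l i) (h2 : w ≠ neg (l j)) : z = z' := by
  have g1 := h.hj
  have g2 := h.hji
  have g3 := h.his
  rcases out_cases hz with ⟨t, ht, hw, rfl⟩ | ⟨t, ht, hw, rfl⟩ <;>
    rcases out_cases hz' with ⟨t', ht', hw', rfl⟩ | ⟨t', ht', hw', rfl⟩
  · rw [dseq_injA h ht ht' (hw.symm.trans hw')]
  · exfalso
    rcases fm_cases h ht ht' (hw.symm.trans hw') with ⟨rfl, -⟩ | ⟨rfl, -⟩
    · rw [dseq_zero] at hw; exact h2 hw
    · rw [dseq_succ l (by omega)] at hw; exact h1 hw
  · exfalso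
    rcases fm_cases h ht' ht (hw'.symm.trans hw) with ⟨rfl, -⟩ | ⟨rfl, -⟩
    · rw [dseq_zero] at hw'; exact h2 hw'
    · rw [dseq_succ l (by omega)] at hw'; exact h1 hw'
  · rw [dseq_injB h ht ht' (neg_inj (hw.symm.trans hw'))]

/-- at the two branching literals there are two out-neighbours -/
lemma out_i {s i j : ℕ} {l : ℕ → Lit n} (h : DB s i j l) {z : Lit n}
    (hz : arc (l i) z ∈ dcl s i j l) : z = l (i + 1) ∨ z = neg (l (s - 1)) := by
  have g1 := h.hj
  have g2 := h.hji
  have g3 := h.his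
  have hi : l i = dseq s i j l (i + 1) := (dseq_succ l (by omega)).symm
  rcases out_cases hz with ⟨t, ht, hw, rfl⟩ | ⟨t, ht, hw, rfl⟩
  · left
    have := dseq_injA h (show i + 1 ≤ s by omega) ht (hi.symm.trans hw)
    rw [← this, dseq_succ l (by omega)]
  · right
    rcases fm_cases h (show i + 1 ≤ s by omega) ht (hi.symm.trans hw) with ⟨h1, -⟩ | ⟨-, rfl⟩
    · omega
    · obtain ⟨t, rfl⟩ : ∃ k, t = k + 1 := ⟨t - 1, by omega⟩
      rw [dseq_succ l (by omega)]
      simp

lemma out_j {s i j : ℕ} {l : ℕ → Lit n} (h : DB s i j l) {z : Lit n}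
    (hz : arc (neg (l j)) z ∈ dcl s i j l) : z = l 0 ∨ z = neg (l (j - 1)) := by
  have g1 := h.hj
  have g2 := h.hji
  have g3 := h.his
  have hj : neg (l j) = dseq s i j l 0 := (dseq_zero s i j l).symm
  rcases out_cases hz with ⟨t, ht, hw, rfl⟩ | ⟨t, ht, hw, rfl⟩
  · left
    have := dseq_injA h (Nat.zero_le s) ht (hj.symm.trans hw)
    rw [← this, dseq_succ l (by omega)]
  · right
    rcases fm_cases h (Nat.zero_le s) ht (hj.symm.trans hw) with ⟨-, rfl⟩ | ⟨h1, -⟩
    · obtain ⟨t, rfl⟩ : ∃ k, t = k + 1 := ⟨t - 1, by omega⟩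
      rw [dseq_succ l (by omega)]
      simp
    · omega

end Pool.Agent.Helper96.TwoSat
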