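import Mathlib
import Pool.Agent.Helper96.TwoSat.Dumb

/-!
# Excursions
-/

set_option autoImplicit false
set_option linter.unusedSectionVars false

open Finset
open scoped Classical

namespace Pool.Agent.Helper96.TwoSat

variable {n : ℕ}

/-- `v` is one of the variables of `l 0, ..., l (s - 1)` -/
def InV (s : ℕ) (l : ℕ → Lit n) (v : Fin n) : Prop := ∃ a < s, (l a).1 = v

/-- an excursion from the variables of `l` with clauses in `A'`, all of them new -/
structure Exc (s : ℕ) (l : ℕ → Lit n) (A A' : Finset (Finset (Lit n))) (r : ℕ) (x : ℕ → Lit n) :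
    Prop where
  start : InV s l (x 0).1
  out : ∀ t, 1 ≤ t → t ≤ r → ¬ InV s l (x t).1
  inj : ∀ t t', 1 ≤ t → t ≤ r → 1 ≤ t' → t' ≤ r → (x t).1 = (x t').1 → t = t'
  fin : InV s l (x (r + 1)).1 ∨ ∃ a, 1 ≤ a ∧ a ≤ r ∧ x (r + 1) = neg (x a)
  arcs : pc x (r + 1) ⊆ A'
  new : Disjoint (pc x (r + 1)) A

lemma reach_pos {s i j : ℕ} {l : ℕ → Lit n} (h : DB s i j l) {a b : ℕ} (ha : a < s) (hb : b < s) :
    Relation.ReflTransGen (fun u v => arc u v ∈ dcl s i j l) (l a) (l b) := by
  have g1 := h.hj
  have g2 := h.hji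
  have g3 := h.his
  have fwd1 : ∀ b, b + 1 < s → arc (l b) (l (b + 1)) ∈ dcl s i j l := by
    intro b hb
    have : arc (dseq s i j l (b + 1)) (dseq s i j l (b + 1 + 1)) ∈ dcl s i j l :=
      mem_dcl.2 ⟨b + 1, by omega, rfl⟩
    rwa [dseq_succ l (by omega), dseq_succ l (by omega)] at this
  have fwd : ∀ a b, a ≤ b → b < s →
      Relation.ReflTransGen (fun u v => arc u v ∈ dcl s i j l) (l a) (l b) := by
    intro a b hab
    induction b, hab using Nat.le_induction with
    | base => exact fun _ => Relation.ReflTransGen.refl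
    | succ k hk ih => exact fun hks => (ih (by omega)).tail (fwd1 k hks)
  have bwd : ∀ a b, a ≤ b → b < s →
      Relation.ReflTransGen (fun u v => arc u v ∈ dcl s i j l) (neg (l b)) (neg (l a)) := by
    intro a b hab
    induction b, hab using Nat.le_induction with
    | base => exact fun _ => Relation.ReflTransGen.refl
    | succ k hk ih =>
      intro hks
      refine Relation.ReflTransGen.head ?_ (ih (by omega))
      rw [arc_neg]
      exact fwd1 k hks
  have e1 : arc (l (s - 1)) (neg (l i)) ∈ dcl s i j l := by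
    have : arc (dseq s i j l s) (dseq s i j l (s + 1)) ∈ dcl s i j l :=
      mem_dcl.2 ⟨s, le_rfl, rfl⟩
    rw [dseq_last] at this
    have e : dseq s i j l s = l (s - 1) := by
      have := dseq_succ (s := s) (i := i) (j := j) l (t := s - 1) (by omega)
      rwa [show s - 1 + 1 = s by omega] at this
    rwa [e] at this
  have e2 : arc (neg (l j)) (l 0) ∈ dcl s i j l := by
    have : arc (dseq s i j l 0) (dseq s i j l 1) ∈ dcl s i j l :=
      mem_dcl.2 ⟨0, Nat.zero_le _, rfl⟩
    rwa [dseq_zero, dseq_succ l (by omega)] at this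
  exact (((fwd a (s - 1) (by omega) (by omega)).tail e1).trans (bwd j i (by omega) (by omega))).trans
    (Relation.ReflTransGen.head e2 (fwd 0 b (Nat.zero_le _) hb))

/-- the walks from which the excursions are cut out -/
def ExcWalk (s : ℕ) (l : ℕ → Lit n) (A' : Finset (Finset (Lit n))) (k : ℕ) : Prop :=
  1 ≤ k ∧ ∃ f : ℕ → Lit n, InV s l (f 0).1 ∧ (∀ t, 1 ≤ t → t ≤ k → ¬ InV s l (f t).1) ∧
    InV s l (f (k + 1)).1 ∧ ∀ t ≤ k, arc (f t) (f (t + 1)) ∈ A'

lemma exists_excWalk {s : ℕ} {l : ℕ → Lit n} {A' : Finset (Finset (Lit n))} {y w : Lit n}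
    (hy : InV s l y.1) (hw : ¬ InV s l w.1)
    (h1 : Relation.ReflTransGen (fun u v => arc u v ∈ A') y w)
    (h2 : Relation.ReflTransGen (fun u v => arc u v ∈ A') w y) : ∃ k, ExcWalk s l A' k := by
  set S : Lit n → Prop := fun u => ¬ InV s l u.1 with hS
  set R : Lit n → Lit n → Prop := fun u v => S u ∧ S v ∧ arc u v ∈ A' with hR
  have c1 : ∀ w, S w → Relation.ReflTransGen (fun u v => arc u v ∈ A') y w →
      ∃ x0 x1, InV s l x0.1 ∧ arc x0 x1 ∈ A' ∧ S x1 ∧ Relation.ReflTransGen R x1 w := by
    intro w hw h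
    induction h with
    | refl => exact absurd hy hw
    | @tail w' w hw' hstep ih =>
      by_cases hc : InV s l w'.1
      · exact ⟨w', w, hc, hstep, hw, Relation.ReflTransGen.refl⟩
      · obtain ⟨x0, x1, e1, e2, e3, e4⟩ := ih hc
        exact ⟨x0, x1, e1, e2, e3, e4.tail ⟨hc, hw, hstep⟩⟩
  have c2 : ∀ w, S w → Relation.ReflTransGen (fun u v => arc u v ∈ A') w y →
      ∃ z y', Relation.ReflTransGen R w z ∧ arc z y' ∈ A' ∧ InV s l y'.1 := by
    intro w hw h
    induction h using Relation.ReflTransGen.head_induction_on with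
    | refl => exact absurd hy hw
    | @head w w' hstep hw' ih =>
      by_cases hc : InV s l w'.1
      · exact ⟨w, w', Relation.ReflTransGen.refl, hstep, hc⟩
      · obtain ⟨z, y', e1, e2, e3⟩ := ih hc
        exact ⟨z, y', Relation.ReflTransGen.head ⟨hw, hc, hstep⟩ e1, e2, e3⟩
  obtain ⟨x0, x1, a1, a2, a3, a4⟩ := c1 w hw h1
  obtain ⟨z, y', b1, b2, b3⟩ := c2 w hw h2
  obtain ⟨k, f, hf0, hfk, hfS, hfA⟩ := exists_walk a3 (a4.trans b1)
  refine ⟨k + 1, by omega, fun t => if t = 0 then x0 else if t ≤ k + 1 then f (t - 1) else y',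
    by simpa using a1, ?_, ?_, ?_⟩
  · intro t ht1 ht2
    simp only [show t ≠ 0 by omega, ht2, if_true, if_false]
    exact hfS (t - 1) (by omega)
  · simp only [show ¬ (k + 1 + 1 ≤ k + 1) by omega, if_false, show k + 1 + 1 ≠ 0 by omega]
    exact b3
  · intro t ht
    rcases Nat.eq_zero_or_pos t with rfl | h0
    · simp only [if_true, zero_add, one_ne_zero, if_false, show 1 ≤ k + 1 by omega, Nat.sub_self]
      rw [hf0]; exact a2
    · rcases Nat.lt_or_ge t (k + 1) with h3 | h3
      · simp only [show t ≠ 0 by omega, show t ≤ k + 1 by omega, show t + 1 ≠ 0 by omega,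
          show t + 1 ≤ k + 1 by omega, if_true, if_false, Nat.add_sub_cancel]
        have := hfA (t - 1) (by omega)
        rwa [show t - 1 + 1 = t by omega] at this
      · have : t = k + 1 := by omega
        subst this
        simp only [show k + 1 ≠ 0 by omega, le_refl, if_true, if_false, Nat.add_sub_cancel,
          show k + 1 + 1 ≠ 0 by omega, show ¬ (k + 1 + 1 ≤ k + 1) by omega]
        rw [hfk]; exact b2

theorem exists_exc {s i j : ℕ} {l : ℕ → Lit n} (h : DB s i j l) {s' i' j' : ℕ} {l' : ℕ → Lit n}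
    (h' : DB s' i' j' l') (hsub : ¬ dcl s' i' j' l' ⊆ dcl s i j l)
    (hint : ∃ a < s', InV s l (l' a).1) :
    ∃ r ≤ s', ∃ x, Exc s l (dcl s i j l) (dcl s' i' j' l') r x := by
  set A := dcl s i j l with hA
  set A' := dcl s' i' j' l' with hA'
  have hvarA : ∀ c ∈ A, ∀ w ∈ c, InV s l w.1 := by
    intro c hc w hw
    obtain ⟨a, ha, e⟩ := dcl_var h hc hw
    exact ⟨a, ha, e.symm⟩
  obtain ⟨c, hc, hcA⟩ := Finset.not_subset.1 hsub
  obtain ⟨t₀, ht₀, rfl⟩ := mem_dcl.1 hc
  set u := dseq s' i' j' l' with hu
  by_cases hin : InV s l (u t₀).1 ∧ InV s l (u (t₀ + 1)).1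
  · refine ⟨0, Nat.zero_le _, fun t => u (t₀ + t), hin.1, fun t h1 h2 => by omega,
      fun t t' h1 h2 => by omega, Or.inl hin.2, ?_, ?_⟩
    · intro c' hc'
      unfold pc at hc'
      simp only [zero_add, range_one, image_singleton, mem_singleton, add_zero] at hc'
      rw [hc']
      exact mem_dcl.2 ⟨t₀, ht₀, rfl⟩
    · unfold pc
      simp only [zero_add, range_one, image_singleton, disjoint_singleton_left, add_zero]
      exact hcA
  · -- a variable outside
    have hout : ∃ b < s', ¬ InV s l (l' b).1 := by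
      rw [not_and_or] at hin
      rcases hin with hin | hin
      · obtain ⟨b, hb, e⟩ := dseq_var h' t₀
        exact ⟨b, hb, by rw [← e]; exact hin⟩
      · obtain ⟨b, hb, e⟩ := dseq_var h' (t₀ + 1)
        exact ⟨b, hb, by rw [← e]; exact hin⟩
    obtain ⟨b, hb, hbV⟩ := hout
    obtain ⟨a, ha, haV⟩ := hint
    have hex := exists_excWalk haV hbV (reach_pos h' ha hb) (reach_pos h' hb ha)
    set k := Nat.find hex with hk
    obtain ⟨hk1, f, f0, fout, fk, farc⟩ := Nat.find_spec hex
    rw [← hk] at hk1 fout fk farc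
    -- no repetition
    have hne : ∀ a b, 1 ≤ a → a < b → b ≤ k → f a ≠ f b := by
      intro a b ha hab hbk heq
      have hlt : k - (b - a) < Nat.find hex := by omega
      apply Nat.find_min hex hlt
      refine ⟨by omega, fun t => if t ≤ a then f t else f (t + (b - a)), by simpa using f0, ?_, ?_, ?_⟩
      · intro t ht1 ht2
        by_cases hc : t ≤ a
        · simp only [hc, if_true]; exact fout t ht1 (by omega)
        · simp only [hc, if_false]; exact fout _ (by omega) (by omega)
      · have hc : ¬ (k - (b - a) + 1 ≤ a) := by omega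
        simp only [hc, if_false]
        rw [show k - (b - a) + 1 + (b - a) = k + 1 by omega]
        exact fk
      · intro t ht
        by_cases hc : t + 1 ≤ a
        · have hc' : t ≤ a := by omega
          simp only [hc, hc', if_true]; exact farc t (by omega)
        · by_cases hc' : t ≤ a
          · have : t = a := by omega
            subst this
            simp only [le_refl, if_true, hc, if_false]
            rw [heq, show t + 1 + (b - t) = b + 1 by omega]
            exact farc b hbk
          · simp only [hc, hc', if_false]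
            rw [show t + 1 + (b - a) = t + (b - a) + 1 by omega]
            exact farc _ (by omega)
    -- the first return or repetition
    have hex2 : ∃ b, 1 ≤ b ∧ (InV s l (f b).1 ∨ ∃ a, 1 ≤ a ∧ a < b ∧ (f a).1 = (f b).1) :=
      ⟨k + 1, by omega, Or.inl fk⟩
    set B := Nat.find hex2 with hB
    obtain ⟨hB1, hBc⟩ := Nat.find_spec hex2
    rw [← hB] at hB1 hBc
    have hBk : B ≤ k + 1 := Nat.find_min' hex2 ⟨by omega, Or.inl fk⟩
    have hmin : ∀ t, 1 ≤ t → t < B → ¬ InV s l (f t).1 ∧ ∀ a, 1 ≤ a → a < t → (f a).1 ≠ (f t).1 := by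
      intro t h1 h2
      have := Nat.find_min hex2 (show t < Nat.find hex2 by rw [← hB]; exact h2)
      push Not at this
      exact this h1
    have hB2 : 2 ≤ B := by
      by_contra hc
      have : B = 1 := by omega
      rw [this] at hBc
      rcases hBc with hBc | ⟨a, h1, h2, -⟩
      · exact fout 1 le_rfl hk1 hBc
      · omega
    have hdis : ∀ t t', 1 ≤ t → t ≤ B - 1 → 1 ≤ t' → t' ≤ B - 1 → (f t).1 = (f t').1 → t = t' := by
      intro t t' h1 h2 h3 h4 h5
      rcases lt_trichotomy t t' with h6 | h6 | h6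
      · exact absurd h5 ((hmin t' h3 (by omega)).2 t h1 h6)
      · exact h6
      · exact absurd h5.symm ((hmin t h1 (by omega)).2 t' h3 h6)
    have harc : pc f (B - 1 + 1) ⊆ A' := by
      intro c' hc'
      unfold pc at hc'
      rw [Finset.mem_image] at hc'
      obtain ⟨t, ht, rfl⟩ := hc'
      rw [Finset.mem_range] at ht
      exact farc t (by omega)
    refine ⟨B - 1, ?_, f, f0, fun t h1 h2 => (hmin t h1 (by omega)).1, hdis, ?_, harc, ?_⟩
    · -- the length
      have hvar : ∀ t, ∃ c, (1 ≤ t → t ≤ B - 1 → c < s' ∧ (f t).1 = (l' c).1) := by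
        intro t
        by_cases h1 : 1 ≤ t ∧ t ≤ B - 1
        · have hm : arc (f t) (f (t + 1)) ∈ A' := farc t (by omega)
          obtain ⟨c, hc, e⟩ := dcl_var h' hm (w := neg (f t)) (by unfold arc; simp)
          exact ⟨c, fun _ _ => ⟨hc, e⟩⟩
        · exact ⟨0, fun h2 h3 => absurd ⟨h2, h3⟩ h1⟩
      choose cc hcc using hvar
      have : (Finset.Icc 1 (B - 1)).card ≤ (Finset.range s').card := by
        apply Finset.card_le_card_of_injOn cc
        · intro t ht
          rw [Finset.coe_Icc, Set.mem_Icc] at ht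
          rw [Finset.mem_coe, Finset.mem_range]
          exact (hcc t ht.1 ht.2).1
        · intro t ht t' ht' e
          rw [Finset.coe_Icc, Set.mem_Icc] at ht ht'
          apply hdis t t' ht.1 ht.2 ht'.1 ht'.2
          rw [(hcc t ht.1 ht.2).2, (hcc t' ht'.1 ht'.2).2, e]
      rw [Nat.card_Icc, card_range] at this
      omega
    · rw [show B - 1 + 1 = B by omega]
      rcases hBc with hBc | ⟨a, h1, h2, h3⟩
      · exact Or.inl hBc
      · by_cases hV : InV s l (f B).1
        · exact Or.inl hV
        · right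
          refine ⟨a, h1, by omega, ?_⟩
          have hBk' : B ≤ k := by
            by_contra hc
            have : B = k + 1 := by omega
            rw [this] at hV
            exact hV fk
          rcases eq_or_eq_neg h3.symm with h4 | h4
          · exact absurd h4.symm (hne a B h1 h2 hBk')
          · exact h4
    · rw [Finset.disjoint_left]
      intro c' hc' hcA'
      unfold pc at hc'
      rw [Finset.mem_image] at hc'
      obtain ⟨t, ht, rfl⟩ := hc'
      rw [Finset.mem_range] at ht
      rcases Nat.eq_zero_or_pos t with rfl | ht0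
      · exact (hmin 1 le_rfl (by omega)).1 (hvarA _ hcA' _ (by unfold arc; simp))
      · refine (hmin t ht0 (by omega)).1 ?_
        have := hvarA _ hcA' (neg (f t)) (by unfold arc; simp)
        exact this

end Pool.Agent.Helper96.TwoSat
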