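import Mathlib
import Pool.Agent.Helper96.TwoSat.Dumb

/-!
# A dumbbell has at most eight parametrisations
-/

set_option autoImplicit false
set_option linter.unusedSectionVars false

open Finset
open scoped Classical

namespace Pool.Agent.Helper96.TwoSat

variable {n : ℕ}

/-- `x 0, ..., x s` passes through the step `w → z` -/
def Passes (s : ℕ) (x : ℕ → Lit n) (w z : Lit n) : Prop := ∃ k ≤ s, x k = w ∧ x (k + 1) = z

section

variable {s i j : ℕ} {l : ℕ → Lit n} {s₁ i₁ j₁ : ℕ} {l₁ : ℕ → Lit n} {s₂ i₂ j₂ : ℕ}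
  {l₂ : ℕ → Lit n}

lemma start_cases (h : DB s i j l) (h₁ : DB s₁ i₁ j₁ l₁) (hs : dcl s₁ i₁ j₁ l₁ ⊆ dcl s i j l) :
    dseq s₁ i₁ j₁ l₁ 0 = l i ∨ dseq s₁ i₁ j₁ l₁ 0 = neg (l j) := by
  have g1 := h₁.hj
  have g2 := h₁.hji
  have g3 := h₁.his
  by_contra hc
  push Not at hc
  have e1 : arc (dseq s₁ i₁ j₁ l₁ 0) (dseq s₁ i₁ j₁ l₁ 1) ∈ dcl s i j l :=
    hs (mem_dcl.2 ⟨0, Nat.zero_le _, rfl⟩)
  have e2 : arc (dseq s₁ i₁ j₁ l₁ 0) (neg (dseq s₁ i₁ j₁ l₁ j₁)) ∈ dcl s i j l := by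
    have e3 : arc (dseq s₁ i₁ j₁ l₁ j₁) (dseq s₁ i₁ j₁ l₁ (j₁ + 1)) ∈ dcl s i j l :=
      hs (mem_dcl.2 ⟨j₁, by omega, rfl⟩)
    rw [← arc_neg] at e3
    have e4 : neg (dseq s₁ i₁ j₁ l₁ (j₁ + 1)) = dseq s₁ i₁ j₁ l₁ 0 := by
      rw [dseq_zero, dseq_succ l₁ (by omega)]
    rwa [e4] at e3
  have e5 := out_unique h e1 e2 hc.1 hc.2
  have e6 : (1 : ℕ) = j₁ := dseq_inj1 h₁ le_rfl (by omega) (by omega) (by omega) (by rw [e5]; rfl)
  rw [← e6] at e5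
  exact neg_ne _ e5.symm

lemma passes_iff (h₁ : DB s₁ i₁ j₁ l₁) {t : ℕ} (ht : t ≤ s₁) {w z : Lit n}
    (hw : dseq s₁ i₁ j₁ l₁ t = w) :
    Passes s₁ (dseq s₁ i₁ j₁ l₁) w z ↔ dseq s₁ i₁ j₁ l₁ (t + 1) = z := by
  constructor
  · rintro ⟨k, hk, h1, h2⟩
    have := dseq_injA h₁ hk ht (h1.trans hw.symm)
    subst this
    exact h2
  · intro hz
    exact ⟨t, ht, hw, hz⟩

theorem walk_eq (h : DB s i j l) (h₁ : DB s₁ i₁ j₁ l₁) (h₂ : DB s₂ i₂ j₂ l₂)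
    (hs₁ : dcl s₁ i₁ j₁ l₁ ⊆ dcl s i j l) (hs₂ : dcl s₂ i₂ j₂ l₂ ⊆ dcl s i j l)
    (c0 : dseq s₁ i₁ j₁ l₁ 0 = l i ↔ dseq s₂ i₂ j₂ l₂ 0 = l i)
    (c1 : Passes s₁ (dseq s₁ i₁ j₁ l₁) (l i) (l (i + 1)) ↔
      Passes s₂ (dseq s₂ i₂ j₂ l₂) (l i) (l (i + 1)))
    (c2 : Passes s₁ (dseq s₁ i₁ j₁ l₁) (neg (l j)) (l 0) ↔
      Passes s₂ (dseq s₂ i₂ j₂ l₂) (neg (l j)) (l 0)) :
    ∀ t, t ≤ s₁ + 1 → t ≤ s₂ + 1 → dseq s₁ i₁ j₁ l₁ t = dseq s₂ i₂ j₂ l₂ t := by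
  intro t
  induction t with
  | zero =>
    intro _ _
    by_cases hc : dseq s₁ i₁ j₁ l₁ 0 = l i
    · rw [hc, c0.1 hc]
    · have h1 := (start_cases h h₁ hs₁).resolve_left hc
      have h2 := (start_cases h h₂ hs₂).resolve_left (fun h' => hc (c0.2 h'))
      rw [h1, h2]
  | succ t ih =>
    intro ht1 ht2
    have ih' := ih (by omega) (by omega)
    have e1 : arc (dseq s₁ i₁ j₁ l₁ t) (dseq s₁ i₁ j₁ l₁ (t + 1)) ∈ dcl s i j l :=
      hs₁ (mem_dcl.2 ⟨t, by omega, rfl⟩)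
    have e2 : arc (dseq s₁ i₁ j₁ l₁ t) (dseq s₂ i₂ j₂ l₂ (t + 1)) ∈ dcl s i j l := by
      rw [ih']
      exact hs₂ (mem_dcl.2 ⟨t, by omega, rfl⟩)
    by_cases hi : dseq s₁ i₁ j₁ l₁ t = l i
    · have p1 := passes_iff h₁ (z := l (i + 1)) (show t ≤ s₁ by omega) hi
      have p2 := passes_iff h₂ (z := l (i + 1)) (show t ≤ s₂ by omega) (ih'.symm.trans hi)
      rw [c1, p2] at p1
      rw [hi] at e1 e2
      rcases out_i h e1 with q1 | q1
      · rw [q1, p1.2 q1]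
      · rcases out_i h e2 with q2 | q2
        · rw [q2, p1.1 q2]
        · rw [q1, q2]
    · by_cases hj : dseq s₁ i₁ j₁ l₁ t = neg (l j)
      · have p1 := passes_iff h₁ (z := l 0) (show t ≤ s₁ by omega) hj
        have p2 := passes_iff h₂ (z := l 0) (show t ≤ s₂ by omega) (ih'.symm.trans hj)
        rw [c2, p2] at p1
        rw [hj] at e1 e2
        rcases out_j h e1 with q1 | q1
        · rw [q1, p1.2 q1]
        · rcases out_j h e2 with q2 | q2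
          · rw [q2, p1.1 q2]
          · rw [q1, q2]
      · exact out_unique h e1 e2 hi hj

theorem param_le (h₁ : DB s₁ i₁ j₁ l₁) (h₂ : DB s₂ i₂ j₂ l₂)
    (hw : ∀ t, t ≤ s₁ + 1 → t ≤ s₂ + 1 → dseq s₁ i₁ j₁ l₁ t = dseq s₂ i₂ j₂ l₂ t) :
    s₂ ≤ s₁ := by
  have g1 := h₁.hj
  have g2 := h₁.hji
  have g3 := h₁.his
  by_contra hc
  have e1 := hw (s₁ + 1) le_rfl (by omega)
  rw [dseq_last] at e1
  have e2 := hw (i₁ + 1) (by omega) (by omega)
  rw [dseq_succ l₁ (by omega)] at e2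
  rw [e2] at e1
  have := dseq_inj1 h₂ (show 1 ≤ s₁ + 1 by omega) (by omega) (show 1 ≤ i₁ + 1 by omega)
    (by omega) (by rw [← e1]; rfl)
  omega

theorem param_eq (h₁ : DB s₁ i₁ j₁ l₁) (h₂ : DB s₂ i₂ j₂ l₂)
    (hw : ∀ t, t ≤ s₁ + 1 → t ≤ s₂ + 1 → dseq s₁ i₁ j₁ l₁ t = dseq s₂ i₂ j₂ l₂ t) :
    s₁ = s₂ ∧ i₁ = i₂ ∧ j₁ = j₂ ∧ ∀ a < s₁, l₁ a = l₂ a := by
  have g1 := h₁.hj
  have g2 := h₁.hji
  have g3 := h₁.his
  have k1 := h₂.hj
  have k2 := h₂.hji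
  have k3 := h₂.his
  have hs : s₁ = s₂ := by
    have := param_le h₁ h₂ hw
    have := param_le h₂ h₁ fun t ht ht' => (hw t ht' ht).symm
    omega
  subst hs
  have hl : ∀ a < s₁, l₁ a = l₂ a := by
    intro a ha
    have := hw (a + 1) (by omega) (by omega)
    rwa [dseq_succ l₁ ha, dseq_succ l₂ ha] at this
  refine ⟨rfl, ?_, ?_, hl⟩
  · have e := hw (s₁ + 1) le_rfl le_rfl
    rw [dseq_last, dseq_last] at e
    have e' := neg_inj e
    rw [hl i₁ (by omega)] at e'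
    exact h₂.inj i₁ (by omega) i₂ (by omega) (by rw [e'])
  · have e := hw 0 (by omega) (by omega)
    rw [dseq_zero, dseq_zero] at e
    have e' := neg_inj e
    rw [hl j₁ (by omega)] at e'
    exact h₂.inj j₁ (by omega) j₂ (by omega) (by rw [e'])

end

/-! ### the family of dumbbells -/

/-- the index set of the shapes -/
abbrev Idx (L : ℕ) := Fin L × Fin L × Fin L

/-- parameters of the shape -/
def pS {L : ℕ} (t : Idx L) : ℕ := 3 * L + t.1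
def pI {L : ℕ} (t : Idx L) : ℕ := L + 1 + t.2.1
def pJ {L : ℕ} (t : Idx L) : ℕ := 1 + t.2.2

lemma pS_ge {L : ℕ} (t : Idx L) : 3 * L ≤ pS t := Nat.le_add_right _ _
lemma pS_lt {L : ℕ} (t : Idx L) : pS t < 4 * L := by have := t.1.2; unfold pS; omega

/-- a parametrised dumbbell -/
abbrev Par (n L : ℕ) := (t : Idx L) × (Fin (pS t + 1) → Lit n)

/-- the sequence of its literals -/
def Par.l {n L : ℕ} (α : Par n L) (a : ℕ) : Lit n := α.2 ⟨min a (pS α.1), by omega⟩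

/-- the variables are distinct -/
def Par.Good {n L : ℕ} (α : Par n L) : Prop := Function.Injective (fun a => (α.2 a).1)

/-- its clauses -/
noncomputable def Par.cl {n L : ℕ} (α : Par n L) : Finset (Finset (Lit n)) :=
  dcl (pS α.1 + 1) (pI α.1) (pJ α.1) α.l

lemma Par.Good.db {L : ℕ} {α : Par n L} (h : α.Good) :
    DB (pS α.1 + 1) (pI α.1) (pJ α.1) α.l := by
  have h1 := α.1.1.2
  have h2 := α.1.2.1.2
  have h3 := α.1.2.2.2
  refine ⟨?_, ?_, ?_, ?_⟩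
  · unfold pJ; omega
  · unfold pJ pI; omega
  · unfold pI pS; omega
  · intro a ha b hb hab
    have : (⟨min a (pS α.1), by omega⟩ : Fin (pS α.1 + 1)) = ⟨min b (pS α.1), by omega⟩ := h hab
    have := congrArg Fin.val this
    simp only at this
    omega

theorem mult_le {L : ℕ} (α : Par n L) (hα : α.Good) :
    (univ.filter fun β : Par n L => β.Good ∧ β.cl ⊆ α.cl).card ≤ 8 := by
  have h := hα.db
  set D : Par n L → ℕ → Lit n := fun β => dseq (pS β.1 + 1) (pI β.1) (pJ β.1) β.l with hD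
  set code : Par n L → Bool × Bool × Bool := fun β =>
    (decide (D β 0 = α.l (pI α.1)),
      decide (Passes (pS β.1 + 1) (D β) (α.l (pI α.1)) (α.l (pI α.1 + 1))),
      decide (Passes (pS β.1 + 1) (D β) (neg (α.l (pJ α.1))) (α.l 0))) with hcode
  have hc : (univ : Finset (Bool × Bool × Bool)).card = 8 := by
    simp
  rw [← hc]
  apply Finset.card_le_card_of_injOn code (fun _ _ => Finset.mem_univ _)
  intro β hβ γ hγ hβγ
  simp only [Finset.coe_filter, Finset.mem_univ, true_and, Set.mem_ofPred_eq] at hβ hγ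
  simp only [hcode, Prod.mk.injEq, decide_eq_decide] at hβγ
  obtain ⟨c0, c1, c2⟩ := hβγ
  have hw := walk_eq h hβ.1.db hγ.1.db hβ.2 hγ.2 c0 c1 c2
  obtain ⟨e1, e2, e3, e4⟩ := param_eq hβ.1.db hγ.1.db hw
  obtain ⟨t, f⟩ := β
  obtain ⟨t', f'⟩ := γ
  have ht : t = t' := by
    unfold pS at e1
    unfold pI at e2
    unfold pJ at e3
    simp only at e1 e2 e3
    ext <;> omega
  subst ht
  congr 1
  funext a
  have := e4 a (by have := a.2; simp only; omega)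
  unfold Par.l at this
  simp only at this
  have ha : (⟨min a (pS t), by omega⟩ : Fin (pS t + 1)) = a := by
    apply Fin.ext
    have := a.2
    simp only
    omega
  rwa [ha] at this

end Pool.Agent.Helper96.TwoSat
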