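import Mathlib
import Pool.Agent.Helper96.TwoSat.Exc
import Pool.Agent.Helper96.TwoSat.Mult

/-!
# The probability of unsatisfiability is bounded below
-/

set_option autoImplicit false
set_option linter.unusedSectionVars false

open Finset
open scoped Classical

namespace Pool.Agent.Helper96.TwoSat

variable {n : ℕ}

/-- the sequence `x0, y 0, ..., y (r-1), e` -/
def build (x0 : Lit n) {r : ℕ} (y : Fin r → Lit n) (e : Lit n) (t : ℕ) : Lit n :=
  if t = 0 then x0 else if h : t - 1 < r then y ⟨t - 1, h⟩ else e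

lemma build_eq (x : ℕ → Lit n) (r : ℕ) {t : ℕ} (ht : t ≤ r + 1) :
    build (x 0) (fun a : Fin r => x (a + 1)) (x (r + 1)) t = x t := by
  unfold build
  rcases Nat.eq_zero_or_pos t with rfl | h0
  · simp
  · rw [if_neg (by omega)]
    by_cases h : t - 1 < r
    · rw [dif_pos h]
      simp only
      rw [show t - 1 + 1 = t by omega]
    · rw [dif_neg h]
      rw [show t = r + 1 by omega]

lemma pc_congr {x y : ℕ → Lit n} {k : ℕ} (h : ∀ t ≤ k, x t = y t) : pc x k = pc y k := by
  unfold pc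
  apply Finset.image_congr
  intro t ht
  simp only [coe_range, Set.mem_Iio] at ht
  simp only
  rw [h t ht.le, h (t + 1) ht]

/-- the conditions on a new excursion -/
def Cond (s : ℕ) (l : ℕ → Lit n) (A : Finset (Finset (Lit n))) (r : ℕ) (x : ℕ → Lit n) : Prop :=
  InV s l (x 0).1 ∧ (∀ t, 1 ≤ t → t ≤ r → ¬ InV s l (x t).1) ∧
  (∀ t t', 1 ≤ t → t ≤ r → 1 ≤ t' → t' ≤ r → (x t).1 = (x t').1 → t = t') ∧
  Disjoint (pc x (r + 1)) A

lemma card_union_pc {s : ℕ} {l : ℕ → Lit n} {A : Finset (Finset (Lit n))} {r : ℕ}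
    {x : ℕ → Lit n} (h : Cond s l A r x) : (A ∪ pc x (r + 1)).card = A.card + (r + 1) := by
  rw [Finset.card_union_of_disjoint h.2.2.2.symm, card_pc h.2.2.1]
  intro t h1 h2 he
  exact h.2.1 t h1 h2 (he ▸ h.1)

lemma card_X0 (s : ℕ) (l : ℕ → Lit n) :
    (univ.filter fun w : Lit n => InV s l w.1).card ≤ 2 * s := by
  have hsub : (univ.filter fun w : Lit n => InV s l w.1) ⊆
      (range s).image l ∪ (range s).image (fun a => neg (l a)) := by
    intro w hw
    rw [Finset.mem_filter] at hw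
    obtain ⟨a, ha, e⟩ := hw.2
    rw [Finset.mem_union, Finset.mem_image, Finset.mem_image]
    rcases eq_or_eq_neg e.symm with h | h
    · exact Or.inl ⟨a, Finset.mem_range.2 ha, h.symm⟩
    · exact Or.inr ⟨a, Finset.mem_range.2 ha, h.symm⟩
  calc _ ≤ _ := Finset.card_le_card hsub
    _ ≤ _ := Finset.card_union_le _ _
    _ ≤ s + s := by
        apply add_le_add
        · exact Finset.card_image_le.trans (by simp)
        · exact Finset.card_image_le.trans (by simp)
    _ = 2 * s := by ring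

variable {Ω : Type*} [Fintype Ω]

lemma pr_false : (pr fun _ : Ω => False) = 0 := by unfold pr; simp

lemma card_funr (r : ℕ) : ((univ : Finset (Fin r → Lit n)).card : ℝ) = (2 * n) ^ r := by
  rw [card_univ, Fintype.card_fun]
  simp [Lit]
  ring

/-- the probability that there is an excursion -/
theorem exc_prob (F : Ω → Finset (Finset (Lit n))) {p : ℝ} (hp0 : 0 ≤ p)
    (hpr : ∀ A : Finset (Finset (Lit n)), pr (fun ω => A ⊆ F ω) ≤ p ^ A.card)
    (hnp : 2 * n * p ≤ 1) (s : ℕ) (l : ℕ → Lit n) (A : Finset (Finset (Lit n))) (R : ℕ) :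
    pr (fun ω => ∃ r < R, ∃ x, Cond s l A r x ∧
      (InV s l (x (r + 1)).1 ∨ ∃ a, 1 ≤ a ∧ a ≤ r ∧ x (r + 1) = neg (x a)) ∧
      A ∪ pc x (r + 1) ⊆ F ω) ≤ p ^ A.card * (R * (2 * s * (2 * s + R)) * p) := by
  set X0 : Finset (Lit n) := univ.filter fun w : Lit n => InV s l w.1 with hX0
  have h1 := pr_le_sum (range R) (fun ω => ∃ r < R, ∃ x, Cond s l A r x ∧
      (InV s l (x (r + 1)).1 ∨ ∃ a, 1 ≤ a ∧ a ≤ r ∧ x (r + 1) = neg (x a)) ∧
      A ∪ pc x (r + 1) ⊆ F ω) (fun r ω => ∃ x, Cond s l A r x ∧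
      (InV s l (x (r + 1)).1 ∨ ∃ a, 1 ≤ a ∧ a ≤ r ∧ x (r + 1) = neg (x a)) ∧
      A ∪ pc x (r + 1) ⊆ F ω) (fun ω ⟨r, hr, hx⟩ => ⟨r, Finset.mem_range.2 hr, hx⟩)
  refine h1.trans ?_
  have h2 : ∀ r ∈ range R, pr (fun ω => ∃ x, Cond s l A r x ∧
      (InV s l (x (r + 1)).1 ∨ ∃ a, 1 ≤ a ∧ a ≤ r ∧ x (r + 1) = neg (x a)) ∧
      A ∪ pc x (r + 1) ⊆ F ω) ≤ p ^ A.card * (2 * s * (2 * s + R) * p) := by
    intro r hr
    rw [Finset.mem_range] at hr
    set E : (Fin r → Lit n) → Finset (Lit n) := fun y => X0 ∪ univ.image (fun a => neg (y a))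
      with hE
    have hEcard : ∀ y, ((E y).card : ℝ) ≤ 2 * s + R := by
      intro y
      have : (E y).card ≤ 2 * s + R := by
        calc (E y).card ≤ _ := Finset.card_union_le _ _
          _ ≤ 2 * s + r := by
              apply add_le_add (card_X0 s l)
              exact Finset.card_image_le.trans (by simp)
          _ ≤ 2 * s + R := by omega
      exact_mod_cast this
    have h3 : pr (fun ω => ∃ x, Cond s l A r x ∧
      (InV s l (x (r + 1)).1 ∨ ∃ a, 1 ≤ a ∧ a ≤ r ∧ x (r + 1) = neg (x a)) ∧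
      A ∪ pc x (r + 1) ⊆ F ω) ≤ ∑ x0 ∈ X0, ∑ y : Fin r → Lit n, ∑ e ∈ E y,
        pr (fun ω => Cond s l A r (build x0 y e) ∧ A ∪ pc (build x0 y e) (r + 1) ⊆ F ω) := by
      refine (pr_le_sum X0 _ (fun x0 ω => ∃ y : Fin r → Lit n, ∃ e ∈ E y,
        Cond s l A r (build x0 y e) ∧ A ∪ pc (build x0 y e) (r + 1) ⊆ F ω) ?_).trans ?_
      · rintro ω ⟨x, hC, hfin, hsub⟩
        have hxb : ∀ t ≤ r + 1,
            build (x 0) (fun a : Fin r => x (a + 1)) (x (r + 1)) t = x t :=
          fun t ht => build_eq x r ht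
        have hpcb : pc (build (x 0) (fun a : Fin r => x (a + 1)) (x (r + 1))) (r + 1) =
          pc x (r + 1) := pc_congr hxb
        refine ⟨x 0, ?_, fun a => x (a + 1), x (r + 1), ?_, ⟨?_, ?_, ?_, ?_⟩, ?_⟩
        · rw [hX0, Finset.mem_filter]; exact ⟨Finset.mem_univ _, hC.1⟩
        · rw [hE]
          simp only [Finset.mem_union, Finset.mem_image, Finset.mem_univ, true_and]
          rcases hfin with hfin | ⟨a, ha1, ha2, ha3⟩
          · left; rw [hX0, Finset.mem_filter]; exact ⟨Finset.mem_univ _, hfin⟩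
          · right
            refine ⟨⟨a - 1, by omega⟩, ?_⟩
            simp only
            rw [ha3, show a - 1 + 1 = a by omega]
        · rw [hxb 0 (by omega)]; exact hC.1
        · intro t h1 h2
          rw [hxb t (by omega)]; exact hC.2.1 t h1 h2
        · intro t t' h1 h2 h3 h4
          rw [hxb t (by omega), hxb t' (by omega)]; exact hC.2.2.1 t t' h1 h2 h3 h4
        · rw [hpcb]; exact hC.2.2.2
        · rw [hpcb]; exact hsub
      · apply Finset.sum_le_sum
        intro x0 _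
        refine (pr_le_sum (univ : Finset (Fin r → Lit n)) _ (fun y ω => ∃ e ∈ E y,
          Cond s l A r (build x0 y e) ∧ A ∪ pc (build x0 y e) (r + 1) ⊆ F ω)
          (fun ω ⟨y, h⟩ => ⟨y, Finset.mem_univ _, h⟩)).trans ?_
        apply Finset.sum_le_sum
        intro y _
        exact pr_le_sum (E y) _ (fun e ω =>
          Cond s l A r (build x0 y e) ∧ A ∪ pc (build x0 y e) (r + 1) ⊆ F ω) (fun ω h => h)
    refine h3.trans ?_
    have h4 : ∀ (x0 : Lit n) (y : Fin r → Lit n) (e : Lit n),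
        pr (fun ω => Cond s l A r (build x0 y e) ∧ A ∪ pc (build x0 y e) (r + 1) ⊆ F ω) ≤
        p ^ A.card * p ^ (r + 1) := by
      intro x0 y e
      by_cases hC : Cond s l A r (build x0 y e)
      · refine (pr_mono fun ω h => h.2).trans ((hpr _).trans ?_)
        rw [card_union_pc hC, pow_add]
      · refine (pr_mono (R := fun _ : Ω => False) fun ω h => hC h.1).trans ?_
        rw [pr_false]; positivity
    calc ∑ x0 ∈ X0, ∑ y : Fin r → Lit n, ∑ e ∈ E y,
          pr (fun ω => Cond s l A r (build x0 y e) ∧ A ∪ pc (build x0 y e) (r + 1) ⊆ F ω)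
        ≤ ∑ x0 ∈ X0, ∑ y : Fin r → Lit n, ∑ e ∈ E y, p ^ A.card * p ^ (r + 1) := by
          apply Finset.sum_le_sum; intro x0 _
          apply Finset.sum_le_sum; intro y _
          apply Finset.sum_le_sum; intro e _
          exact h4 x0 y e
      _ ≤ ∑ x0 ∈ X0, ∑ y : Fin r → Lit n, (2 * s + R) * (p ^ A.card * p ^ (r + 1)) := by
          apply Finset.sum_le_sum; intro x0 _
          apply Finset.sum_le_sum; intro y _
          rw [Finset.sum_const, nsmul_eq_mul]
          exact mul_le_mul_of_nonneg_right (hEcard y) (by positivity)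
      _ = X0.card * ((2 * n) ^ r * ((2 * s + R) * (p ^ A.card * p ^ (r + 1)))) := by
          rw [Finset.sum_const, nsmul_eq_mul, Finset.sum_const, nsmul_eq_mul, card_funr]
      _ = X0.card * ((2 * s + R) * p ^ A.card * (2 * n * p) ^ r * p) := by
          rw [mul_pow (2 * (n : ℝ)) p, pow_succ]; ring
      _ ≤ (2 * s) * ((2 * s + R) * p ^ A.card * 1 * p) := by
          have hc : (X0.card : ℝ) ≤ 2 * s := by exact_mod_cast card_X0 s l
          have hpw : (2 * (n : ℝ) * p) ^ r ≤ 1 := pow_le_one₀ (by positivity) hnp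
          have : (2 * (s : ℝ) + R) * p ^ A.card * (2 * n * p) ^ r * p ≤
            (2 * s + R) * p ^ A.card * 1 * p := by gcongr
          exact mul_le_mul hc this (by positivity) (by positivity)
      _ = p ^ A.card * (2 * s * (2 * s + R) * p) := by ring
  refine (Finset.sum_le_sum h2).trans ?_
  rw [Finset.sum_const, nsmul_eq_mul, card_range]
  apply le_of_eq
  ring

end Pool.Agent.Helper96.TwoSat
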