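import Mathlib
import Pool.Agent.Helper96.TwoSat.UniqProb

/-!
# The probability of a uniquely satisfiable subformula: conclusion
-/

set_option autoImplicit false
set_option linter.unusedSectionVars false

open Finset
open scoped Classical

namespace Pool.Agent.Helper96.TwoSat

variable {n : ℕ}

/-- extend a finite sequence -/
def ext {t : ℕ} (f : Fin (t + 1) → Lit n) (i : ℕ) : Lit n := f ⟨min i t, by omega⟩

lemma ext_apply {t : ℕ} (f : ℕ → Lit n) {i : ℕ} (hi : i ≤ t) :
    ext (fun j : Fin (t + 1) => f j) i = f i := by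
  unfold ext
  simp [hi]

lemma loop_congr {F : Finset (Finset (Lit n))} {f f' : ℕ → Lit n} {t : ℕ}
    {X : Finset (Finset (Lit n))} (h : ∀ i ≤ t, f' i = f i) (hL : Loop F f t X) :
    Loop F f' t X := by
  obtain ⟨S, hS, hf, hpc, hX, q, g, h0, hq, hP⟩ := hL
  refine ⟨S, hS, fun i hi => by rw [h i hi]; exact hf i hi, ?_, hX, q, g, ?_, ?_, hP⟩
  · intro c hc
    apply hpc
    unfold pc at hc ⊢
    rw [Finset.mem_image] at hc ⊢
    obtain ⟨i, hi, rfl⟩ := hc
    rw [Finset.mem_range] at hi
    exact ⟨i, by rwa [Finset.mem_range], by rw [h i hi.le, h (i + 1) hi]⟩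
  · rw [h t le_rfl, h0]
  · rw [h 0 (Nat.zero_le _), hq]

lemma extra_pair (f : ℕ → Lit n) (t : ℕ) :
    Extra f t ({({f 0, f t} : Finset (Lit n))} : Finset (Finset (Lit n))) := by
  intro S hS hf c hc u v hu hv h
  rw [Finset.mem_singleton] at hc
  rw [hc] at h
  have h1 : neg u ∈ ({f 0, f t} : Finset (Lit n)) := by rw [h]; unfold arc; simp
  simp only [Finset.mem_insert, Finset.mem_singleton] at h1
  have h2 : S (neg u) := by
    rcases h1 with h1 | h1 <;> rw [h1]
    · exact hf 0 (Nat.zero_le _)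
    · exact hf t le_rfl
  exact hS u hu h2

lemma extra_empty (f : ℕ → Lit n) (t : ℕ) : Extra f t ∅ := by
  intro S _ _ c hc
  simp at hc

/-- first type: a short loop with a clause of two of its literals -/
def TypeOne (M : ℕ) (F : Finset (Finset (Lit n))) : Prop :=
  ∃ t, 1 ≤ t ∧ t < M ∧ ∃ f : ℕ → Lit n, (∀ i ≤ t, ∀ j ≤ t, f i = f j → i = j) ∧
    Loop F f t {({f 0, f t} : Finset (Lit n))}

/-- second type: many long loops -/
def TypeTwo (Q : ℕ) (F : Finset (Finset (Lit n))) : Prop :=
  Q + 1 ≤ (univ.filter fun f : Fin (Q + 1) → Lit n => Function.Injective f ∧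
    Loop F (ext f) Q ∅).card

theorem typeOne_or_typeTwo (F : Finset (Finset (Lit n))) (hF : ∀ c ∈ F, Valid c) (hU : HasUniq F)
    (Q : ℕ) : TypeOne (2 * Q) F ∨ TypeTwo Q F := by
  obtain ⟨S, hS, ⟨x, x', hx, hx', hxx', hch⟩, hconn⟩ := uniq_struct F hF hU
  obtain ⟨k, f, h0, hk, hP⟩ := hconn x' x hx' hx
  have hk1 : 1 ≤ k := by
    by_contra h
    have : k = 0 := by omega
    subst this
    exact hxx' (hk.symm.trans h0)
  have hpcF : ∀ (f : ℕ → Lit n) (k : ℕ), PathIn S F k f → pc f k ⊆ F := by
    intro f k hP c hc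
    unfold pc at hc
    rw [Finset.mem_image] at hc
    obtain ⟨i, hi, rfl⟩ := hc
    exact hP.1.2 i (Finset.mem_range.1 hi)
  by_cases hkQ : k < 2 * Q
  · left
    refine ⟨k, hk1, hkQ, f, hP.2, S, hS, hP.1.1, hpcF f k hP, ?_, hconn _ _ ?_ ?_⟩
    · intro c hc
      rw [Finset.mem_singleton] at hc
      rw [hc, h0, hk, Finset.pair_comm]
      exact hch
    · rw [hk]; exact hx
    · rw [h0]; exact hx'
  · right
    have hkQ' : 2 * Q ≤ k := by omega
    unfold TypeTwo
    set φ : ℕ → (Fin (Q + 1) → Lit n) := fun i j => f (i + j) with hφ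
    have hinj : Set.InjOn φ (range (Q + 1) : Finset ℕ) := by
      intro i hi j hj hij
      simp only [coe_range, Set.mem_Iio] at hi hj
      have h1 := congrFun hij 0
      simp only [hφ, Fin.val_zero, add_zero] at h1
      exact hP.2 i (by omega) j (by omega) h1
    have hcard : (range (Q + 1)).card = ((range (Q + 1)).image φ).card :=
      (Finset.card_image_of_injOn hinj).symm
    refine le_trans (le_of_eq ((card_range (Q + 1)).symm.trans hcard)) ?_
    apply Finset.card_le_card
    intro f' hf'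
    rw [Finset.mem_image] at hf'
    obtain ⟨i, hi, rfl⟩ := hf'
    rw [Finset.mem_range] at hi
    rw [Finset.mem_filter]
    have hPi : PathIn S F Q (fun j => f (i + j)) := by
      refine ⟨⟨fun j hj => hP.1.1 _ (by omega), fun j hj => ?_⟩, fun j hj j' hj' h => ?_⟩
      · have := hP.1.2 (i + j) (by omega)
        exact this
      · have := hP.2 _ (by omega) _ (by omega) h
        omega
    refine ⟨Finset.mem_univ _, ?_, ?_⟩
    · intro j j' h
      have := hPi.2 j (by omega) j' (by omega) h
      exact Fin.ext this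
    · apply loop_congr (f := fun j => f (i + j))
      · intro j hj
        exact ext_apply (fun j => f (i + j)) hj
      · exact ⟨S, hS, hPi.1.1, hpcF _ _ hPi, by simp,
          hconn _ _ (hP.1.1 _ (by omega)) (hP.1.1 _ (by omega))⟩

variable {Ω : Type*} [Fintype Ω]

lemma card_fun (t : ℕ) : ((univ : Finset (Fin (t + 1) → Lit n)).card : ℝ) = (2 * n) ^ (t + 1) := by
  rw [card_univ, Fintype.card_fun]
  simp [Lit]
  ring

theorem uniq_prob (F : Ω → Finset (Finset (Lit n))) {p : ℝ} (hp0 : 0 ≤ p) (hp1 : p ≤ 1)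
    (hpr : ∀ A : Finset (Finset (Lit n)), pr (fun ω => A ⊆ F ω) ≤ p ^ A.card)
    (hF : ∀ ω, ∀ c ∈ F ω, Valid c) (Q : ℕ) (hQ : 1 ≤ Q)
    (ρ : ℝ) (hρ : (2 * n : ℝ) * p + p * ((2 * Q : ℕ) * ((2 * Q : ℕ) + 1) / 2) ≤ ρ) (hρ1 : ρ < 1)
    (hnp : 2 * n * p ≤ 1) :
    pr (fun ω => HasUniq (F ω)) ≤
      (2 * Q : ℕ) * (p / (1 - ρ)) + (2 * n * p) ^ (Q + 1) / ((1 - ρ) * (Q + 1)) := by
  have h1ρ : 0 < 1 - ρ := by linarith
  have hρt : ∀ t : ℕ, t ≤ 2 * Q → (2 * n : ℝ) * p + p * (t * (t + 1) / 2) ≤ ρ := by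
    intro t ht
    refine le_trans ?_ hρ
    have ht' : (t : ℝ) ≤ (2 * Q : ℕ) := by exact_mod_cast ht
    gcongr
  refine (pr_mono fun ω h => typeOne_or_typeTwo (F ω) (hF ω) h Q).trans ?_
  refine (pr_or_le _ _).trans (add_le_add ?_ ?_)
  · -- first type
    have h1 : pr (fun ω => TypeOne (2 * Q) (F ω)) ≤ ∑ t ∈ Ico 1 (2 * Q),
        pr (fun ω => ∃ f : Fin (t + 1) → Lit n, Function.Injective f ∧
          Loop (F ω) (ext f) t {({ext f 0, ext f t} : Finset (Lit n))}) := by
      apply pr_le_sum
      rintro ω ⟨t, ht1, ht2, f, hf, hL⟩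
      refine ⟨t, Finset.mem_Ico.2 ⟨ht1, ht2⟩, fun j => f j, ?_, ?_⟩
      · intro j j' h
        exact Fin.ext (hf j (by omega) j' (by omega) h)
      · rw [ext_apply f (Nat.zero_le _), ext_apply f le_rfl]
        exact loop_congr (fun i hi => ext_apply f hi) hL
    refine h1.trans ?_
    have h2 : ∀ t ∈ Ico 1 (2 * Q), pr (fun ω => ∃ f : Fin (t + 1) → Lit n, Function.Injective f ∧
          Loop (F ω) (ext f) t {({ext f 0, ext f t} : Finset (Lit n))}) ≤ p / (1 - ρ) := by
      intro t ht
      rw [Finset.mem_Ico] at ht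
      refine (pr_le_sum (univ : Finset (Fin (t + 1) → Lit n)) _ (fun f ω => Function.Injective f ∧
          Loop (F ω) (ext f) t {({ext f 0, ext f t} : Finset (Lit n))})
          (fun ω ⟨f, h1, h2⟩ => ⟨f, Finset.mem_univ _, h1, h2⟩)).trans ?_
      have h3 : ∀ f ∈ (univ : Finset (Fin (t + 1) → Lit n)), pr (fun ω => Function.Injective f ∧
          Loop (F ω) (ext f) t {({ext f 0, ext f t} : Finset (Lit n))}) ≤
          p ^ (t + 1) * (p / (1 - ρ)) := by
        intro f _
        by_cases hf : Function.Injective f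
        · have hinj : ∀ i ≤ t, ∀ j ≤ t, ext f i = ext f j → i = j := by
            intro i hi j hj h
            unfold ext at h
            have := hf h
            simpa [hi, hj] using this
          refine (pr_mono fun ω h => h.2).trans ?_
          have := loop_prob F hp0 hp1 hpr (ext f) t ht.1 hinj
            {({ext f 0, ext f t} : Finset (Lit n))} (extra_pair _ _) ρ (hρt t ht.2.le) hρ1
          rwa [Finset.card_singleton] at this
        · refine (pr_mono (R := fun _ : Ω => False) fun ω hω => hf hω.1).trans ?_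
          have : (pr fun _ : Ω => False) = 0 := by unfold pr; simp
          rw [this]
          positivity
      refine (Finset.sum_le_sum h3).trans ?_
      rw [Finset.sum_const, nsmul_eq_mul, card_fun, ← mul_assoc, ← mul_pow]
      exact mul_le_of_le_one_left (by positivity) (pow_le_one₀ (by positivity) hnp)
    refine (Finset.sum_le_sum h2).trans ?_
    rw [Finset.sum_const, nsmul_eq_mul]
    apply mul_le_mul_of_nonneg_right _ (by positivity)
    rw [Nat.card_Ico]
    exact_mod_cast Nat.sub_le _ _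
  · -- second type
    have h1 := pr_mul_le_sum (univ : Finset (Fin (Q + 1) → Lit n)) (fun ω => TypeTwo Q (F ω))
      (fun f ω => Function.Injective f ∧ Loop (F ω) (ext f) Q ∅) (Q + 1)
      (fun ω h => by unfold TypeTwo at h; convert h)
    have h3 : ∀ f ∈ (univ : Finset (Fin (Q + 1) → Lit n)), pr (fun ω => Function.Injective f ∧
          Loop (F ω) (ext f) Q ∅) ≤ p ^ Q * (p / (1 - ρ)) := by
      intro f _
      by_cases hf : Function.Injective f
      · have hinj : ∀ i ≤ Q, ∀ j ≤ Q, ext f i = ext f j → i = j := by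
          intro i hi j hj h
          unfold ext at h
          have := hf h
          simpa [hi, hj] using this
        refine (pr_mono fun ω h => h.2).trans ?_
        have := loop_prob F hp0 hp1 hpr (ext f) Q hQ hinj ∅ (extra_empty _ _) ρ
          (hρt Q (by omega)) hρ1
        rwa [Finset.card_empty, add_zero] at this
      · refine (pr_mono (R := fun _ : Ω => False) fun ω hω => hf hω.1).trans ?_
        have : (pr fun _ : Ω => False) = 0 := by unfold pr; simp
        rw [this]
        positivity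
    have h4 := h1.trans (Finset.sum_le_sum h3)
    rw [Finset.sum_const, nsmul_eq_mul, card_fun] at h4
    rw [le_div_iff₀ (by positivity)]
    have h5 : (2 * (n : ℝ)) ^ (Q + 1) * (p ^ Q * (p / (1 - ρ))) =
        (2 * n * p) ^ (Q + 1) / (1 - ρ) := by
      rw [mul_pow (2 * (n : ℝ)) p, pow_succ p Q]; ring
    rw [h5, le_div_iff₀ h1ρ] at h4
    push_cast at h4
    linarith

end Pool.Agent.Helper96.TwoSat
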