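import Mathlib
import Pool.Agent.Helper96.TwoSat.DumbProb
import Pool.Agent.Helper96.TwoSat.UniqProb2

/-!
# The probability of unsatisfiability is bounded below: conclusion
-/

set_option autoImplicit false
set_option linter.unusedSectionVars false

open Finset
open scoped Classical

namespace Pool.Agent.Helper96.TwoSat

variable {n : ℕ} {Ω : Type*} [Fintype Ω]

lemma Par.Good.card_cl {L : ℕ} {α : Par n L} (h : α.Good) : α.cl.card = pS α.1 + 2 := by
  unfold Par.cl
  rw [card_dcl h.db]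

/-- another dumbbell of the formula which is not a part of the dumbbell `α` -/
def Bad {L : ℕ} (α : Par n L) (F : Finset (Finset (Lit n))) : Prop :=
  ∃ β : Par n L, β.Good ∧ β.cl ⊆ F ∧ ¬ β.cl ⊆ α.cl

lemma bad_prob {L : ℕ} (hL : 1 ≤ L) (F : Ω → Finset (Finset (Lit n))) {p : ℝ} (hp0 : 0 ≤ p)
    (hpr : ∀ A : Finset (Finset (Lit n)), pr (fun ω => A ⊆ F ω) ≤ p ^ A.card)
    (hnp : 2 * n * p ≤ 1) (α : Par n L) (hα : α.Good) :
    pr (fun ω => α.cl ⊆ F ω ∧ Bad α (F ω)) ≤ p ^ (pS α.1 + 2) * (521 * L ^ 3 * p) := by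
  set s := pS α.1 + 1 with hs
  have hsL : s ≤ 4 * L := by have := pS_lt α.1; omega
  have hdb := hα.db
  -- the event splits
  have h1 : pr (fun ω => α.cl ⊆ F ω ∧ Bad α (F ω)) ≤
      pr (fun ω => (∃ β : Par n L, (β.Good ∧ Disjoint α.cl β.cl) ∧ α.cl ∪ β.cl ⊆ F ω) ∨
        ∃ r < 4 * L + 1, ∃ x, Cond s α.l α.cl r x ∧
      (InV s α.l (x (r + 1)).1 ∨ ∃ a, 1 ≤ a ∧ a ≤ r ∧ x (r + 1) = neg (x a)) ∧
      α.cl ∪ pc x (r + 1) ⊆ F ω) := by
    apply pr_mono
    rintro ω ⟨hαF, β, hβ, hβF, hsub⟩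
    have hdb' := hβ.db
    by_cases hint : ∃ a < pS β.1 + 1, InV s α.l (β.l a).1
    · right
      obtain ⟨r, hr, x, hx⟩ := exists_exc hdb hdb' hsub hint
      have := pS_lt β.1
      exact ⟨r, by omega, x, ⟨hx.start, hx.out, hx.inj, hx.new⟩, hx.fin,
        Finset.union_subset hαF (hx.arcs.trans hβF)⟩
    · left
      refine ⟨β, ⟨hβ, ?_⟩, Finset.union_subset hαF hβF⟩
      rw [Finset.disjoint_left]
      intro c hc hc'
      obtain ⟨t, ht, rfl⟩ := mem_dcl.1 hc'
      obtain ⟨a, ha, e⟩ := dcl_var hdb' hc' (w := dseq (pS β.1 + 1) (pI β.1) (pJ β.1) β.l (t + 1))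
        (by unfold arc; simp)
      obtain ⟨b, hb, e'⟩ := dcl_var hdb hc (w := dseq (pS β.1 + 1) (pI β.1) (pJ β.1) β.l (t + 1))
        (by unfold arc; simp)
      exact hint ⟨a, ha, b, hb, by rw [← e', e]⟩
  refine h1.trans ((pr_or_le _ _).trans ?_)
  have hcard := hα.card_cl
  have h2 : pr (fun ω => ∃ r < 4 * L + 1, ∃ x, Cond s α.l α.cl r x ∧
      (InV s α.l (x (r + 1)).1 ∨ ∃ a, 1 ≤ a ∧ a ≤ r ∧ x (r + 1) = neg (x a)) ∧
      α.cl ∪ pc x (r + 1) ⊆ F ω) ≤ p ^ (pS α.1 + 2) * (520 * L ^ 3 * p) := by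
    refine (exc_prob F hp0 hpr hnp s α.l α.cl (4 * L + 1)).trans ?_
    rw [hcard]
    apply mul_le_mul_of_nonneg_left _ (by positivity)
    apply mul_le_mul_of_nonneg_right _ hp0
    have hs' : (s : ℝ) ≤ 4 * L := by exact_mod_cast hsL
    have hL' : (1 : ℝ) ≤ L := by exact_mod_cast hL
    push_cast
    have hs0 : (0 : ℝ) ≤ s := Nat.cast_nonneg s
    have e1 : (4 * (L : ℝ) + 1) ≤ 5 * L := by linarith
    have e2 : 2 * (s : ℝ) ≤ 8 * L := by linarith
    have e3 : 2 * (s : ℝ) + (4 * L + 1) ≤ 13 * L := by linarith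
    calc (4 * (L : ℝ) + 1) * (2 * s * (2 * s + (4 * L + 1)))
        ≤ (5 * L) * ((8 * L) * (13 * L)) := by gcongr
      _ = 520 * (L : ℝ) ^ 3 := by ring
  have h3 : pr (fun ω => ∃ β : Par n L, (β.Good ∧ Disjoint α.cl β.cl) ∧ α.cl ∪ β.cl ⊆ F ω) ≤
      p ^ (pS α.1 + 2) * (L ^ 3 * p) := by
    refine (pr_le_sum (univ : Finset (Par n L)) _ (fun β ω => (β.Good ∧ Disjoint α.cl β.cl) ∧
      α.cl ∪ β.cl ⊆ F ω) (fun ω ⟨β, h⟩ => ⟨β, Finset.mem_univ _, h⟩)).trans ?_
    have h4 : ∀ β ∈ (univ : Finset (Par n L)), pr (fun ω => (β.Good ∧ Disjoint α.cl β.cl) ∧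
      α.cl ∪ β.cl ⊆ F ω) ≤ p ^ (pS α.1 + 2) * p ^ (pS β.1 + 2) := by
      intro β _
      by_cases hβ : β.Good ∧ Disjoint α.cl β.cl
      · refine (pr_mono fun ω h => h.2).trans ((hpr _).trans ?_)
        rw [Finset.card_union_of_disjoint hβ.2, hcard, hβ.1.card_cl, pow_add]
      · refine (pr_mono (R := fun _ : Ω => False) fun ω h => hβ h.1).trans ?_
        rw [pr_false]; positivity
    refine (Finset.sum_le_sum h4).trans ?_
    rw [← Finset.mul_sum]
    apply mul_le_mul_of_nonneg_left _ (by positivity)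
    rw [Fintype.sum_sigma]
    have h5 : ∀ t ∈ (univ : Finset (Idx L)),
        ∑ f : Fin (pS t + 1) → Lit n, p ^ (pS (⟨t, f⟩ : Par n L).1 + 2) ≤ p := by
      intro t _
      simp only
      rw [Finset.sum_const, nsmul_eq_mul, card_fun]
      calc (2 * (n : ℝ)) ^ (pS t + 1) * p ^ (pS t + 2) = (2 * n * p) ^ (pS t + 1) * p := by
            rw [mul_pow (2 * (n : ℝ)) p, pow_succ p (pS t + 1)]; ring
        _ ≤ 1 * p := by
            apply mul_le_mul_of_nonneg_right _ hp0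
            exact pow_le_one₀ (by positivity) hnp
        _ = p := one_mul p
    refine (Finset.sum_le_sum h5).trans ?_
    rw [Finset.sum_const, nsmul_eq_mul, card_univ]
    simp only [Fintype.card_prod, Fintype.card_fin]
    push_cast
    apply le_of_eq
    ring
  calc _ ≤ p ^ (pS α.1 + 2) * (L ^ 3 * p) + p ^ (pS α.1 + 2) * (520 * L ^ 3 * p) :=
        add_le_add h3 h2
    _ = p ^ (pS α.1 + 2) * (521 * L ^ 3 * p) := by ring

/-- the number of good dumbbells of a given shape -/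
lemma card_good (S : ℕ) (hS : S ≤ n) : (2 * ((n : ℝ) - S)) ^ (S + 1) ≤
    ((univ.filter fun f : Fin (S + 1) → Lit n => Function.Injective (fun a => (f a).1)).card : ℝ) := by
  set φ : (Fin (S + 1) ↪ Fin n) × (Fin (S + 1) → Bool) → (Fin (S + 1) → Lit n) :=
    fun x a => (x.1 a, x.2 a) with hφ
  have h1 : Fintype.card ((Fin (S + 1) ↪ Fin n) × (Fin (S + 1) → Bool)) ≤
      (univ.filter fun f : Fin (S + 1) → Lit n => Function.Injective (fun a => (f a).1)).card := by
    rw [← card_univ]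
    apply Finset.card_le_card_of_injOn φ
    · intro x _
      simp only [Finset.coe_filter, Finset.mem_univ, true_and, Set.mem_ofPred_eq]
      exact x.1.injective
    · rintro ⟨e, b⟩ _ ⟨e', b'⟩ _ h
      have h2 : ∀ a, e a = e' a ∧ b a = b' a := fun a => by
        have := congrFun h a
        simpa [hφ] using this
      congr 1
      · ext a; rw [(h2 a).1]
      · funext a; exact (h2 a).2
  have h2 : (n - S) ^ (S + 1) * 2 ^ (S + 1) ≤
      Fintype.card ((Fin (S + 1) ↪ Fin n) × (Fin (S + 1) → Bool)) := by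
    rw [Fintype.card_prod, Fintype.card_embedding_eq, Fintype.card_fun]
    simp only [Fintype.card_fin, Fintype.card_bool]
    apply Nat.mul_le_mul_right
    have := Nat.pow_sub_le_descFactorial n (S + 1)
    rwa [show n + 1 - (S + 1) = n - S by omega] at this
  calc (2 * ((n : ℝ) - S)) ^ (S + 1) = (((n - S) ^ (S + 1) * 2 ^ (S + 1) : ℕ) : ℝ) := by
        rw [mul_pow]
        push_cast [Nat.cast_sub hS]
        ring
    _ ≤ _ := by exact_mod_cast h2.trans h1

theorem unsat_prob {L : ℕ} (hL : 1 ≤ L) (hLn : 4 * L ≤ n) (F : Ω → Finset (Finset (Lit n)))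
    {p : ℝ} (hp0 : 0 ≤ p)
    (hpr : ∀ A : Finset (Finset (Lit n)), pr (fun ω => A ⊆ F ω) ≤ p ^ A.card)
    (hnp : 2 * n * p ≤ 1) (ε : ℝ)
    (hlow : ∀ A : Finset (Finset (Lit n)), (∀ c ∈ A, Valid c) → A.card ≤ 4 * L + 1 →
      (1 - ε) * p ^ A.card ≤ pr (fun ω => A ⊆ F ω)) (hε : 521 * L ^ 3 * p + ε ≤ 1) :
    (1 - ε - 521 * L ^ 3 * p) * (L ^ 3 * p * (2 * (n - 4 * L) * p) ^ (4 * L)) ≤
      8 * pr (fun ω => ¬ Sat (F ω)) := by
  obtain ⟨G, hG⟩ : ∃ G : Par n L → Ω → Prop, ∀ α ω, G α ω ↔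
    (α.Good ∧ α.cl ⊆ F ω ∧ ¬ Bad α (F ω)) := ⟨_, fun _ _ => Iff.rfl⟩
  have h1 : ∑ α : Par n L, pr (G α) ≤ (8 : ℕ) * pr (fun ω => ¬ Sat (F ω)) := by
    apply sum_le_mul_pr
    · intro ω
      by_cases hne : ∃ α₀, G α₀ ω
      · obtain ⟨α₀, h₀⟩ := hne
        rw [hG] at h₀
        refine (Finset.card_le_card ?_).trans (mult_le α₀ h₀.1)
        intro β hβ
        have hβ' : G β ω := by simpa using hβ
        rw [hG] at hβ'
        have : β.Good ∧ β.cl ⊆ α₀.cl := by
          refine ⟨hβ'.1, ?_⟩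
          by_contra hc
          exact h₀.2.2 ⟨β, hβ'.1, hβ'.2.1, hc⟩
        simpa using this
      · push Not at hne
        refine le_of_eq_of_le (Finset.card_eq_zero.2 (Finset.filter_eq_empty_iff.2
          fun α _ => hne α)) (by norm_num)
    · intro α _ ω h
      rw [hG] at h
      exact not_sat h.1.db h.2.1
  have h2 : ∀ α : Par n L, α.Good →
      (1 - ε - 521 * L ^ 3 * p) * p ^ (pS α.1 + 2) ≤ pr (G α) := by
    intro α hα
    have h3 : pr (fun ω => α.cl ⊆ F ω) - pr (fun ω => α.cl ⊆ F ω ∧ Bad α (F ω)) ≤ pr (G α) := by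
      refine (pr_sub_le _ _).trans (pr_mono ?_)
      rintro ω ⟨h4, h5⟩
      rw [hG]
      exact ⟨hα, h4, fun h6 => h5 ⟨h4, h6⟩⟩
    have h4 := bad_prob hL F hp0 hpr hnp α hα
    have h5 := hlow α.cl (fun c hc => by
      obtain ⟨t, ht, rfl⟩ := mem_dcl.1 hc
      exact valid_arc (dseq_valid hα.db ht)) (by
        rw [hα.card_cl]; have := pS_lt α.1; omega)
    rw [hα.card_cl] at h5
    calc (1 - ε - 521 * L ^ 3 * p) * p ^ (pS α.1 + 2)
        = (1 - ε) * p ^ (pS α.1 + 2) - p ^ (pS α.1 + 2) * (521 * L ^ 3 * p) := by ring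
      _ ≤ pr (G α) := by linarith
  have h3 : (L : ℝ) ^ 3 * p * (2 * (n - 4 * L) * p) ^ (4 * L) ≤
      ∑ α ∈ univ.filter (fun α : Par n L => α.Good), p ^ (pS α.1 + 2) := by
    rw [Finset.sum_filter, Fintype.sum_sigma]
    have hn : (4 * (L : ℝ)) ≤ n := by exact_mod_cast hLn
    have h4 : ∀ t ∈ (univ : Finset (Idx L)), p * (2 * (n - 4 * L) * p) ^ (4 * L) ≤
        ∑ f : Fin (pS t + 1) → Lit n, if Par.Good (⟨t, f⟩ : Par n L) then
          p ^ (pS (⟨t, f⟩ : Par n L).1 + 2) else 0 := by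
      intro t _
      rw [← Finset.sum_filter]
      simp only
      rw [Finset.sum_const, nsmul_eq_mul]
      have h5 := card_good (n := n) (pS t) (by have := pS_lt t; omega)
      have h6 : (univ.filter fun f : Fin (pS t + 1) → Lit n =>
          Function.Injective (fun a => (f a).1)) =
          (univ.filter fun f : Fin (pS t + 1) → Lit n => Par.Good (⟨t, f⟩ : Par n L)) :=
        Finset.filter_congr fun _ _ => Iff.rfl
      rw [h6] at h5
      have h7 : (pS t : ℝ) ≤ 4 * L := by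
        have := pS_lt t
        exact_mod_cast this.le
      have h8 : (2 * ((n : ℝ) - 4 * L) * p) ^ (4 * L) ≤ (2 * ((n : ℝ) - pS t) * p) ^ (pS t + 1) := by
        calc (2 * ((n : ℝ) - 4 * L) * p) ^ (4 * L) ≤ (2 * ((n : ℝ) - 4 * L) * p) ^ (pS t + 1) := by
              apply pow_le_pow_of_le_one
              · have : 0 ≤ (n : ℝ) - 4 * L := by linarith
                positivity
              · refine le_trans ?_ hnp
                have : (n : ℝ) - 4 * L ≤ n := by linarith [Nat.cast_nonneg (α := ℝ) L]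
                gcongr
              · have := pS_lt t; omega
          _ ≤ _ := by
              have : 0 ≤ (n : ℝ) - 4 * L := by linarith
              gcongr
      calc p * (2 * ((n : ℝ) - 4 * L) * p) ^ (4 * L) ≤
            p * (2 * ((n : ℝ) - pS t) * p) ^ (pS t + 1) := mul_le_mul_of_nonneg_left h8 hp0
        _ = (2 * ((n : ℝ) - pS t)) ^ (pS t + 1) * p ^ (pS t + 2) := by
            rw [mul_pow (2 * ((n : ℝ) - pS t)) p, pow_succ p (pS t + 1)]; ring
        _ ≤ _ := mul_le_mul_of_nonneg_right h5 (by positivity)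
    have h5 := Finset.sum_le_sum h4
    rw [Finset.sum_const, nsmul_eq_mul, card_univ] at h5
    simp only [Fintype.card_prod, Fintype.card_fin] at h5
    refine le_trans (le_of_eq ?_) h5
    push_cast
    ring
  calc (1 - ε - 521 * L ^ 3 * p) * (L ^ 3 * p * (2 * (n - 4 * L) * p) ^ (4 * L))
      ≤ (1 - ε - 521 * L ^ 3 * p) *
        ∑ α ∈ univ.filter (fun α : Par n L => α.Good), p ^ (pS α.1 + 2) :=
        mul_le_mul_of_nonneg_left h3 (by linarith)
    _ = ∑ α ∈ univ.filter (fun α : Par n L => α.Good),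
        (1 - ε - 521 * L ^ 3 * p) * p ^ (pS α.1 + 2) := by rw [Finset.mul_sum]
    _ ≤ ∑ α ∈ univ.filter (fun α : Par n L => α.Good), pr (G α) := by
        apply Finset.sum_le_sum
        intro α hα
        exact h2 α (Finset.mem_filter.1 hα).2
    _ ≤ ∑ α : Par n L, pr (G α) :=
        Finset.sum_le_sum_of_subset_of_nonneg (Finset.filter_subset _ _)
          (fun α _ _ => pr_nonneg _)
    _ ≤ 8 * pr (fun ω => ¬ Sat (F ω)) := by exact_mod_cast h1

end Pool.Agent.Helper96.TwoSat
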