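import Mathlib
import Pool.Agent.Helper96.TwoSat.Base

/-!
# Random orderings: the probability that a given set of clauses is among the first `T`
-/

set_option autoImplicit false
set_option linter.unusedSectionVars false

open Finset
open scoped Classical

namespace Pool.Agent.Helper96.TwoSat

section

variable {Ω : Type*} [Fintype Ω]

lemma pr_equiv (φ : Ω ≃ Ω) (Q : Ω → Prop) : pr (fun ω => Q (φ ω)) = pr Q := by
  rw [pr_eq_sum, pr_eq_sum, Equiv.sum_comp φ (fun ω => if Q ω then (1 : ℝ) else 0)]

lemma pr_congr {Q R : Ω → Prop} (h : ∀ ω, Q ω ↔ R ω) : pr Q = pr R := by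
  have : Q = R := funext fun ω => propext (h ω)
  rw [this]

end

variable {C : Type*} [Fintype C] [DecidableEq C]

/-- the clauses of `A` are among the first `T` -/
def First {N : ℕ} (T : ℕ) (A : Finset C) (e : Fin N ≃ C) : Prop := ∀ c ∈ A, (e.symm c : ℕ) < T

lemma card_first {N : ℕ} (T : ℕ) (hT : T ≤ N) (e : Fin N ≃ C) :
    (univ.filter fun c : C => (e.symm c : ℕ) < T).card = T := by
  have h : (univ.filter fun c : C => (e.symm c : ℕ) < T) =
      (univ.filter fun i : Fin N => (i : ℕ) < T).map e.toEmbedding := by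
    ext c
    simp only [Finset.mem_filter, Finset.mem_univ, true_and, Finset.mem_map, Equiv.coe_toEmbedding]
    constructor
    · intro h
      exact ⟨e.symm c, h, by simp⟩
    · rintro ⟨i, hi, rfl⟩
      simpa using hi
  rw [h, Finset.card_map]
  rw [Fin.card_filter_val_lt]
  exact min_eq_right hT

lemma first_succ {N : ℕ} (hN : Fintype.card C = N) (T : ℕ) (hT : T ≤ N) (A : Finset C) (c : C)
    (hc : c ∉ A) :
    ((N - A.card : ℕ) : ℝ) * pr (First (N := N) T (insert c A)) =
      ((T - A.card : ℕ) : ℝ) * pr (First (N := N) T A) := by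
  have h1 : ∀ c' ∈ Aᶜ, pr (First (N := N) T (insert c' A)) = pr (First (N := N) T (insert c A)) := by
    intro c' hc'
    rw [Finset.mem_compl] at hc'
    set φ : (Fin N ≃ C) ≃ (Fin N ≃ C) :=
      ⟨fun e => e.trans (Equiv.swap c c'), fun e => e.trans (Equiv.swap c c'),
        fun e => by ext x; simp, fun e => by ext x; simp⟩ with hφ
    rw [← pr_equiv φ (First (N := N) T (insert c' A))]
    apply pr_congr
    intro e
    have hsw : ∀ x, (φ e).symm x = e.symm (Equiv.swap c c' x) := by
      intro x
      simp [hφ, Equiv.symm_trans_apply]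
    have hA : ∀ x ∈ A, Equiv.swap c c' x = x := fun x hx =>
      Equiv.swap_apply_of_ne_of_ne (fun h => hc (h ▸ hx)) (fun h => hc' (h ▸ hx))
    unfold First
    simp only [Finset.mem_insert, forall_eq_or_imp, hsw, Equiv.swap_apply_right]
    constructor
    · rintro ⟨g1, g2⟩
      exact ⟨g1, fun x hx => by have := g2 x hx; rwa [hA x hx] at this⟩
    · rintro ⟨g1, g2⟩
      exact ⟨g1, fun x hx => by rw [hA x hx]; exact g2 x hx⟩
  have h2 : ∑ c' ∈ Aᶜ, pr (First (N := N) T (insert c' A)) =
      ((N - A.card : ℕ) : ℝ) * pr (First (N := N) T (insert c A)) := by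
    rw [Finset.sum_congr rfl h1, Finset.sum_const, nsmul_eq_mul, Finset.card_compl, hN]
  rw [← h2]
  simp only [pr_eq_sum]
  rw [← Finset.sum_div, ← mul_div_assoc]
  congr 1
  rw [Finset.sum_comm, Finset.mul_sum]
  apply Finset.sum_congr rfl
  intro e _
  rw [Finset.sum_boole]
  by_cases hA : First T A e
  · rw [if_pos hA, mul_one]
    congr 1
    have h3 : (Aᶜ.filter fun c' => First T (insert c' A) e) =
        (univ.filter fun c : C => (e.symm c : ℕ) < T) \ A := by
      ext x
      simp only [Finset.mem_filter, Finset.mem_compl, Finset.mem_sdiff, Finset.mem_univ, true_and]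
      constructor
      · rintro ⟨g1, g2⟩
        exact ⟨g2 x (Finset.mem_insert_self _ _), g1⟩
      · rintro ⟨g1, g2⟩
        refine ⟨g2, fun y hy => ?_⟩
        rcases Finset.mem_insert.1 hy with rfl | hy
        · exact g1
        · exact hA y hy
    rw [h3, Finset.card_sdiff_of_subset, card_first T hT e]
    intro x hx
    rw [Finset.mem_filter]
    exact ⟨Finset.mem_univ _, hA x hx⟩
  · rw [if_neg hA, mul_zero]
    have h3 : (Aᶜ.filter fun c' => First T (insert c' A) e) = ∅ := by
      rw [Finset.filter_eq_empty_iff]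
      intro x _ h
      exact hA fun y hy => h y (Finset.mem_insert_of_mem hy)
    rw [h3]
    simp

lemma nonempty_equiv {N : ℕ} (hN : Fintype.card C = N) : Nonempty (Fin N ≃ C) :=
  ⟨(Fintype.equivFinOfCardEq hN).symm⟩

lemma first_empty {N : ℕ} (hN : Fintype.card C = N) (T : ℕ) :
    pr (First (N := N) T (∅ : Finset C)) = 1 := by
  have := nonempty_equiv hN
  have h : pr (First (N := N) T (∅ : Finset C)) = pr (fun _ : Fin N ≃ C => True) :=
    pr_congr fun e => by unfold First; simp
  rw [h]
  unfold pr
  simp only [Finset.filter_true, card_univ]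
  apply div_self
  have := Fintype.card_pos (α := Fin N ≃ C)
  positivity

lemma first_le {N : ℕ} (hN : Fintype.card C = N) (T : ℕ) (hT : T ≤ N) (A : Finset C) :
    pr (First (N := N) T A) ≤ ((T : ℝ) / N) ^ A.card := by
  induction A using Finset.induction_on with
  | empty => rw [first_empty hN]; simp
  | @insert c A hc ih =>
    have h := first_succ hN T hT A c hc
    rw [Finset.card_insert_of_notMem hc, pow_succ]
    have hcard : A.card < N := by
      rw [← hN, ← Finset.card_univ]
      apply Finset.card_lt_card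
      rw [Finset.ssubset_univ_iff]
      intro h
      exact hc (h ▸ Finset.mem_univ c)
    have hpos : (0 : ℝ) < ((N - A.card : ℕ) : ℝ) := by
      have : 0 < N - A.card := by omega
      exact_mod_cast this
    have h1 : pr (First (N := N) T (insert c A)) =
        ((T - A.card : ℕ) : ℝ) / ((N - A.card : ℕ) : ℝ) * pr (First (N := N) T A) := by
      field_simp
      linarith
    have hN0 : (0 : ℝ) < N := by
      have : 0 < N := by omega
      exact_mod_cast this
    have h2 : ((T - A.card : ℕ) : ℝ) / ((N - A.card : ℕ) : ℝ) ≤ (T : ℝ) / N := by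
      rw [div_le_div_iff₀ hpos hN0]
      have : (T - A.card) * N ≤ T * (N - A.card) := by
        rcases Nat.le_total T A.card with h | h
        · rw [Nat.sub_eq_zero_of_le h, zero_mul]; exact Nat.zero_le _
        · zify [h, hcard.le]
          have : (T : ℤ) ≤ N := by exact_mod_cast hT
          nlinarith [Nat.zero_le A.card]
      exact_mod_cast this
    rw [h1, mul_comm]
    exact mul_le_mul ih h2 (by positivity) (by positivity)

lemma le_first {N : ℕ} (hN : Fintype.card C = N) (T : ℕ) (hT : T ≤ N) (m : ℕ) (hm : m ≤ T)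
    (A : Finset C) (hA : A.card ≤ m + 1) :
    (((T : ℝ) - m) / N) ^ A.card ≤ pr (First (N := N) T A) := by
  induction A using Finset.induction_on with
  | empty => rw [first_empty hN]; simp
  | @insert c A hc ih =>
    have h := first_succ hN T hT A c hc
    rw [Finset.card_insert_of_notMem hc] at hA ⊢
    have ih' := ih (by omega)
    rw [pow_succ]
    have hcard : A.card < N := by
      rw [← hN, ← Finset.card_univ]
      apply Finset.card_lt_card
      rw [Finset.ssubset_univ_iff]
      intro h
      exact hc (h ▸ Finset.mem_univ c)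
    have hpos : (0 : ℝ) < ((N - A.card : ℕ) : ℝ) := by
      have : 0 < N - A.card := by omega
      exact_mod_cast this
    have h1 : pr (First (N := N) T (insert c A)) =
        ((T - A.card : ℕ) : ℝ) / ((N - A.card : ℕ) : ℝ) * pr (First (N := N) T A) := by
      field_simp
      linarith
    have hN0 : (0 : ℝ) < N := by
      have : 0 < N := by omega
      exact_mod_cast this
    have hmT : (0 : ℝ) ≤ (T : ℝ) - m := by
      have : (m : ℝ) ≤ T := by exact_mod_cast hm
      linarith
    have h2 : ((T : ℝ) - m) / N ≤ ((T - A.card : ℕ) : ℝ) / ((N - A.card : ℕ) : ℝ) := by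
      rw [Nat.cast_sub (by omega : A.card ≤ T)] 
      apply div_le_div₀
      · have : (A.card : ℝ) ≤ m := by exact_mod_cast (by omega : A.card ≤ m)
        have : (m : ℝ) ≤ T := by exact_mod_cast hm
        linarith
      · have : (A.card : ℝ) ≤ m := by exact_mod_cast (by omega : A.card ≤ m)
        linarith
      · exact hpos
      · exact_mod_cast Nat.sub_le _ _
    rw [h1, mul_comm]
    exact mul_le_mul h2 ih' (by positivity) (by positivity)

/-! ### the clauses -/

/-- the type of the 2-clauses -/
abbrev Cl (n : ℕ) := {c : Finset (Fin n × Bool) // c.card = 2 ∧ (c.image Prod.fst).card = 2}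

lemma card_Cl (n : ℕ) : Fintype.card (Cl n) = 2 * n * (n - 1) := by
  have h1 : Fintype.card (Cl n) = ((Finset.powersetCard 2 (univ : Finset (Lit n))).filter
      fun c => (c.image Prod.fst).card = 2).card := by
    rw [Fintype.card_subtype]
    congr 1
    ext c
    simp [Finset.mem_powersetCard]
  have h2 : (Finset.powersetCard 2 (univ : Finset (Lit n))).filter
      (fun c => ¬ (c.image Prod.fst).card = 2) =
      (univ : Finset (Fin n)).image (fun i => ({(i, false), (i, true)} : Finset (Lit n))) := by
    ext c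
    simp only [Finset.mem_filter, Finset.mem_powersetCard, Finset.subset_univ, true_and,
      Finset.mem_image, Finset.mem_univ]
    constructor
    · rintro ⟨g1, g2⟩
      obtain ⟨x, y, hxy, rfl⟩ := Finset.card_eq_two.1 g1
      have h3 : x.1 = y.1 := by
        by_contra h
        apply g2
        rw [Finset.image_insert, Finset.image_singleton]
        exact Finset.card_pair h
      refine ⟨x.1, ?_⟩
      rcases eq_or_eq_neg h3 with h | h
      · exact absurd h hxy
      · rcases x with ⟨a, b⟩
        rcases y with ⟨a', b'⟩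
        simp only at h3
        subst h3
        cases b <;> cases b' <;> simp [neg] at h
        · rfl
        · exact Finset.pair_comm _ _
    · rintro ⟨i, rfl⟩
      refine ⟨Finset.card_pair (by simp), ?_⟩
      rw [Finset.image_insert, Finset.image_singleton]
      simp
  have h3 : ((Finset.powersetCard 2 (univ : Finset (Lit n))).filter
      (fun c => ¬ (c.image Prod.fst).card = 2)).card = n := by
    rw [h2, Finset.card_image_of_injective, card_univ, Fintype.card_fin]
    intro i j h
    have h' : ({(i, false), (i, true)} : Finset (Lit n)) = {(j, false), (j, true)} := h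
    rw [pair_eq_iff] at h'
    simpa using h'
  have h4 := Finset.card_filter_add_card_filter_not
    (s := Finset.powersetCard 2 (univ : Finset (Lit n))) (fun c => (c.image Prod.fst).card = 2)
  rw [h3, Finset.card_powersetCard, card_univ] at h4
  have h5 : Fintype.card (Lit n) = 2 * n := by simp [Lit]; ring
  rw [h5, Nat.choose_two_right] at h4
  rw [h1]
  have h6 : 2 * n * (2 * n - 1) / 2 = n * (2 * n - 1) := by
    rw [mul_assoc, Nat.mul_div_cancel_left _ (by norm_num)]
  rw [h6] at h4
  rcases Nat.eq_zero_or_pos n with rfl | hn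
  · simp at h4 ⊢
    exact h4
  · obtain ⟨k, rfl⟩ : ∃ k, n = k + 1 := ⟨n - 1, by omega⟩
    have e1 : 2 * (k + 1) - 1 = 2 * k + 1 := by omega
    have e2 : k + 1 - 1 = k := by omega
    rw [e1] at h4
    rw [e2]
    nlinarith

/-- the formula of the first `T` clauses -/
noncomputable def form {n N : ℕ} (T : ℕ) (e : Fin N ≃ Cl n) : Finset (Finset (Lit n)) :=
  (univ.filter fun c : Cl n => (e.symm c : ℕ) < T).image Subtype.val

lemma mem_form {n N : ℕ} {T : ℕ} {e : Fin N ≃ Cl n} {c : Finset (Lit n)} :
    c ∈ form T e ↔ ∃ h : Valid c, (e.symm ⟨c, h⟩ : ℕ) < T := by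
  unfold form
  simp only [Finset.mem_image, Finset.mem_filter, Finset.mem_univ, true_and]
  constructor
  · rintro ⟨c', h, rfl⟩
    exact ⟨c'.2, h⟩
  · rintro ⟨h, h'⟩
    exact ⟨⟨c, h⟩, h', rfl⟩

lemma subset_form_iff {n N : ℕ} {T : ℕ} {e : Fin N ≃ Cl n} (A : Finset (Cl n)) :
    A.image Subtype.val ⊆ form T e ↔ First T A e := by
  constructor
  · intro h c hc
    have := h (Finset.mem_image_of_mem _ hc)
    obtain ⟨h1, h2⟩ := mem_form.1 this
    exact h2
  · intro h c hc
    obtain ⟨c', hc', rfl⟩ := Finset.mem_image.1 hc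
    exact mem_form.2 ⟨c'.2, h c' hc'⟩

lemma exists_lift {n : ℕ} (A : Finset (Finset (Lit n))) (hA : ∀ c ∈ A, Valid c) :
    ∃ A' : Finset (Cl n), A'.image Subtype.val = A ∧ A'.card = A.card := by
  refine ⟨univ.filter fun c : Cl n => c.val ∈ A, ?_, ?_⟩
  · ext c
    simp only [Finset.mem_image, Finset.mem_filter, Finset.mem_univ, true_and]
    constructor
    · rintro ⟨c', h, rfl⟩; exact h
    · intro h; exact ⟨⟨c, hA c h⟩, h, rfl⟩
  · rw [← Finset.card_image_of_injective _ Subtype.val_injective]
    congr 1
    ext c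
    simp only [Finset.mem_image, Finset.mem_filter, Finset.mem_univ, true_and]
    constructor
    · rintro ⟨c', h, rfl⟩; exact h
    · intro h; exact ⟨⟨c, hA c h⟩, h, rfl⟩

theorem form_le {n N : ℕ} (hN : Fintype.card (Cl n) = N) (T : ℕ) (hT : T ≤ N)
    (A : Finset (Finset (Lit n))) :
    pr (fun e : Fin N ≃ Cl n => A ⊆ form T e) ≤ ((T : ℝ) / N) ^ A.card := by
  by_cases hA : ∀ c ∈ A, Valid c
  · obtain ⟨A', h1, h2⟩ := exists_lift A hA
    have key : pr (fun e : Fin N ≃ Cl n => A ⊆ form T e)
        = pr (fun e : Fin N ≃ Cl n => First T A' e) :=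
      pr_congr fun e => by rw [← h1]; exact subset_form_iff A'
    rw [key, ← h2]
    exact first_le hN T hT A'
  · have h : pr (fun e : Fin N ≃ Cl n => A ⊆ form T e) ≤ 0 := by
      refine (pr_mono (R := fun _ : Fin N ≃ Cl n => False) ?_).trans ?_
      · intro e h
        exact hA fun c hc => (mem_form.1 (h hc)).1
      · unfold pr; simp
    exact h.trans (by positivity)

theorem le_form {n N : ℕ} (hN : Fintype.card (Cl n) = N) (T : ℕ) (hT : T ≤ N) (m : ℕ)
    (hm : m ≤ T) (A : Finset (Finset (Lit n))) (hA : ∀ c ∈ A, Valid c) (hAm : A.card ≤ m + 1) :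
    (((T : ℝ) - m) / N) ^ A.card ≤ pr (fun e : Fin N ≃ Cl n => A ⊆ form T e) := by
  obtain ⟨A', h1, h2⟩ := exists_lift A hA
  have key : pr (fun e : Fin N ≃ Cl n => A ⊆ form T e)
      = pr (fun e : Fin N ≃ Cl n => First T A' e) :=
    pr_congr fun e => by rw [← h1]; exact subset_form_iff A'
  rw [key, ← h2]
  exact le_first hN T hT m hm A' (h2.le.trans hAm)

lemma valid_of_mem_form {n N : ℕ} {T : ℕ} {e : Fin N ≃ Cl n} {c : Finset (Lit n)}
    (h : c ∈ form T e) : Valid c := (mem_form.1 h).1

end Pool.Agent.Helper96.TwoSat
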