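import Mathlib
import Pool.Agent.Helper96.TwoSat.UniqProb2
import Pool.Agent.Helper96.TwoSat.DumbProb2
import Pool.Agent.Helper96.TwoSat.Perm

/-!
# The numbers: `n = (256 L)^3` and `T = n - 17 (256 L)^2`
-/

set_option autoImplicit false

open Finset
open scoped Classical

namespace Pool.Agent.Helper96.TwoSat

lemma uniq_num {K p x : ℝ} (hK : 2560000000 ≤ K) (hx1 : x ≤ 1 - 16 / K) (hx0 : 0 ≤ x)
    (hp : p * (2 * K ^ 3) = x) :
    (2 * K ^ 3) * p + p * ((4 * K) * (4 * K + 1) / 2) ≤ 1 - 11 / K := by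
  have hK0 : (0 : ℝ) < K := by linarith
  have hp' : p = x / (2 * K ^ 3) := by
    field_simp
    linarith
  have hxx : x ≤ 1 := by
    have : 0 ≤ 16 / K := by positivity
    linarith
  have hple : p ≤ 1 / (2 * K ^ 3) := by
    rw [hp']
    exact div_le_div_of_nonneg_right hxx (by positivity)
  have h1 : (2 * K ^ 3) * p ≤ 1 - 16 / K := by rw [mul_comm, hp]; exact hx1
  have h2 : p * ((4 * K) * (4 * K + 1) / 2) ≤ 1 / (2 * K ^ 3) * ((4 * K) * (4 * K + 1) / 2) :=
    mul_le_mul_of_nonneg_right hple (by positivity)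
  have h3 : 1 / (2 * K ^ 3) * ((4 * K) * (4 * K + 1) / 2) ≤ 5 / K := by
    have : 1 / (2 * K ^ 3) * ((4 * K) * (4 * K + 1) / 2) = (4 + 1 / K) / K := by
      field_simp
      ring
    rw [this]
    apply div_le_div_of_nonneg_right _ hK0.le
    have : 1 / K ≤ 1 := by rw [div_le_one hK0]; linarith
    linarith
  have h4 : 16 / K - 5 / K = 11 / K := by ring
  linarith

lemma uniq_num2 {K p x : ℝ} (Kn : ℕ) (hKn : K = Kn) (hK : 2560000000 ≤ K) (hx1 : x ≤ 1 - 16 / K)
    (hx0 : 0 ≤ x) (hp : p * (2 * K ^ 3) = x) :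
    (4 * K) * (p / (1 - (1 - 11 / K))) + x ^ (2 * Kn + 1) / ((1 - (1 - 11 / K)) * (2 * K + 1)) ≤
      1 / 10 ^ 9 := by
  have hK0 : (0 : ℝ) < K := by linarith
  have hxx : x ≤ 1 := by
    have : 0 ≤ 16 / K := by positivity
    linarith
  have hp' : p = x / (2 * K ^ 3) := by
    field_simp
    linarith
  have hple : p ≤ 1 / (2 * K ^ 3) := by
    rw [hp']
    exact div_le_div_of_nonneg_right hxx (by positivity)
  have e1 : 1 - (1 - 11 / K) = 11 / K := by ring
  rw [e1]
  have h1 : (4 * K) * (p / (11 / K)) ≤ 2 / 10 ^ 10 := by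
    have h : (4 * K) * (p / (11 / K)) = 4 / 11 * K ^ 2 * p := by
      field_simp
    rw [h]
    have h' : 4 / 11 * K ^ 2 * p ≤ 4 / 11 * K ^ 2 * (1 / (2 * K ^ 3)) :=
      mul_le_mul_of_nonneg_left hple (by positivity)
    have h'' : 4 / 11 * K ^ 2 * (1 / (2 * K ^ 3)) = 2 / 11 / K := by
      field_simp
      norm_num
    have h3 : 2 / 11 / K ≤ 2 / 11 / 2560000000 :=
      div_le_div_of_nonneg_left (by norm_num) (by norm_num) hK
    rw [h''] at h'
    refine h'.trans (h3.trans ?_)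
    norm_num
  have h2 : x ^ (2 * Kn + 1) ≤ 1 / 2 ^ 32 := by
    have hx2 : x ≤ Real.exp (-(16 / K)) := by
      have := Real.add_one_le_exp (-(16 / K))
      linarith
    calc x ^ (2 * Kn + 1) ≤ (Real.exp (-(16 / K))) ^ (2 * Kn + 1) := pow_le_pow_left₀ hx0 hx2 _
      _ = Real.exp (((2 * Kn + 1 : ℕ) : ℝ) * (-(16 / K))) := by rw [Real.exp_nat_mul]
      _ ≤ Real.exp (-((32 : ℕ) : ℝ) * 1) := by
          apply Real.exp_le_exp.2
          push_cast
          rw [← hKn]
          have : (2 * K + 1) * -(16 / K) = -32 - 16 / K := by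
            field_simp
            ring
          rw [this]
          have : 0 ≤ 16 / K := by positivity
          linarith
      _ = 1 / (Real.exp 1) ^ 32 := by
          rw [← Real.exp_nat_mul, one_div, ← Real.exp_neg]
          congr 1
          ring
      _ ≤ 1 / 2 ^ 32 := by
          apply div_le_div_of_nonneg_left (by norm_num) (by positivity)
          apply pow_le_pow_left₀ (by norm_num)
          have := Real.add_one_le_exp 1
          linarith
  have h3 : x ^ (2 * Kn + 1) / ((11 / K) * (2 * K + 1)) ≤ 1 / 10 ^ 10 := by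
    have h4 : (22 : ℝ) ≤ (11 / K) * (2 * K + 1) := by
      have : (11 / K) * (2 * K + 1) = 22 + 11 / K := by
        field_simp
        ring
      rw [this]
      have : 0 ≤ 11 / K := by positivity
      linarith
    calc x ^ (2 * Kn + 1) / ((11 / K) * (2 * K + 1)) ≤ (1 / 2 ^ 32) / 22 :=
          div_le_div₀ (by positivity) h2 (by norm_num) h4
      _ ≤ 1 / 10 ^ 10 := by norm_num
  calc _ ≤ (2 : ℝ) / 10 ^ 10 + 1 / 10 ^ 10 := add_le_add h1 h3
    _ ≤ 1 / 10 ^ 9 := by norm_num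

lemma unsat_num {L K p x ε : ℝ} (Ln : ℕ) (hLn : L = Ln) (hL : 10000000 ≤ L) (hKL : K = 256 * L)
    (hx1 : x ≤ 1 - 16 / K) (hx0 : 1 - 17 / K ≤ x) (hp : p * (2 * K ^ 3) = x)
    (hε0 : 0 ≤ ε) (hε : ε ≤ 1 / 1000) :
    521 * L ^ 3 * p + ε ≤ 1 ∧
    2 / 10 ^ 9 * 8 ≤ (1 - ε - 521 * L ^ 3 * p) * (L ^ 3 * p * (2 * (K ^ 3 - 4 * L) * p) ^ (4 * Ln)) := by
  have hL0 : (0 : ℝ) < L := by linarith
  have hK0 : (0 : ℝ) < K := by rw [hKL]; linarith
  have hxx : x ≤ 1 := by
    have : 0 ≤ 16 / K := by positivity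
    linarith
  have hp' : p = x / (2 * K ^ 3) := by
    field_simp
    linarith
  have h17 : 17 / K ≤ 1 / 100 := by
    rw [div_le_div_iff₀ hK0 (by norm_num)]
    linarith
  have hx99 : 99 / 100 ≤ x := by linarith
  have hLp : L ^ 3 * p = x / (2 * 256 ^ 3) := by
    rw [hp', hKL]
    field_simp
  have h1 : 521 * L ^ 3 * p ≤ 1 / 1000 := by
    have : 521 * L ^ 3 * p = 521 * (x / (2 * 256 ^ 3)) := by rw [← hLp]; ring
    rw [this]
    have : x / (2 * 256 ^ 3) ≤ 1 / (2 * 256 ^ 3) :=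
      div_le_div_of_nonneg_right hxx (by positivity)
    refine (mul_le_mul_of_nonneg_left this (by norm_num)).trans ?_
    norm_num
  have h2 : 29 / 10 ^ 9 ≤ L ^ 3 * p := by
    rw [hLp]
    calc (29 : ℝ) / 10 ^ 9 ≤ (99 / 100) / (2 * 256 ^ 3) := by norm_num
      _ ≤ _ := div_le_div_of_nonneg_right hx99 (by positivity)
  have h3 : (7 : ℝ) / 10 ≤ (2 * (K ^ 3 - 4 * L) * p) ^ (4 * Ln) := by
    have e1 : 2 * (K ^ 3 - 4 * L) * p = x * (1 - 4 * L / K ^ 3) := by
      rw [hp']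
      field_simp
    have e2 : 4 * L / K ^ 3 ≤ 1 / 10000 / L := by
      rw [hKL]
      have : 4 * L / (256 * L) ^ 3 = 4 / (256 ^ 3 * L) / L := by
        field_simp
      rw [this]
      apply div_le_div_of_nonneg_right _ hL0.le
      rw [div_le_div_iff₀ (by positivity) (by norm_num)]
      norm_num
      linarith
    have e3 : 17 / K = 17 / 256 / L := by rw [hKL]; field_simp
    have e4 : 0 ≤ 4 * L / K ^ 3 := by positivity
    have e5 : 1 - (17 / 256 + 1 / 10000) / L ≤ x * (1 - 4 * L / K ^ 3) := by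
      have e6 : (1 - 17 / K) * (1 - 4 * L / K ^ 3) ≤ x * (1 - 4 * L / K ^ 3) := by
        apply mul_le_mul_of_nonneg_right hx0
        have : 1 / 10000 / L ≤ 1 := by
          rw [div_le_one hL0]
          linarith
        linarith
      refine le_trans ?_ e6
      have : (1 - 17 / K) * (1 - 4 * L / K ^ 3) =
          1 - 17 / K - 4 * L / K ^ 3 + 17 / K * (4 * L / K ^ 3) := by ring
      rw [this]
      have e7 : 0 ≤ 17 / K * (4 * L / K ^ 3) := by positivity
      have e8 : (17 / 256 + 1 / 10000) / L = 17 / 256 / L + 1 / 10000 / L := by ring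
      rw [e8, ← e3]
      linarith
    rw [e1]
    have e9 : (17 / 256 + 1 / 10000) / L ≤ 1 := by
      rw [div_le_one hL0]
      linarith
    calc (7 : ℝ) / 10 ≤ 1 + ((4 * Ln : ℕ) : ℝ) * (-((17 / 256 + 1 / 10000) / L)) := by
          push_cast
          rw [← hLn]
          have : 4 * L * -((17 / 256 + 1 / 10000) / L) = -(4 * (17 / 256 + 1 / 10000)) := by
            field_simp
          rw [this]
          norm_num
      _ ≤ (1 + -((17 / 256 + 1 / 10000) / L)) ^ (4 * Ln) :=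
          one_add_mul_le_pow (by linarith) _
      _ ≤ (x * (1 - 4 * L / K ^ 3)) ^ (4 * Ln) := by
          apply pow_le_pow_left₀
          · linarith
          · linarith
  refine ⟨by linarith, ?_⟩
  have h4 : (99 : ℝ) / 100 ≤ 1 - ε - 521 * L ^ 3 * p := by linarith
  calc (2 : ℝ) / 10 ^ 9 * 8 ≤ (99 / 100) * (29 / 10 ^ 9 * (7 / 10)) := by norm_num
    _ ≤ _ := by
      apply mul_le_mul h4 _ (by norm_num) (by linarith)
      exact mul_le_mul h2 h3 (by norm_num) (by linarith [h2])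

theorem num_main (L : ℕ) (hL : 10000000 ≤ L) (n N T : ℕ) (hn : n = (256 * L) ^ 3)
    (hN : Fintype.card (Cl n) = N) (hT : T + 17 * (256 * L) ^ 2 = n) :
    pr (fun e : Fin N ≃ Cl n => HasUniq (form T e)) + 1 / 10 ^ 9 ≤
      pr (fun e : Fin N ≃ Cl n => ¬ Sat (form T e)) := by
  obtain ⟨K, hKdef⟩ : ∃ K : ℝ, K = 256 * L := ⟨_, rfl⟩
  have hLr : (10000000 : ℝ) ≤ L := by exact_mod_cast hL
  have hK : 2560000000 ≤ K := by rw [hKdef]; linarith
  have hK0 : (0 : ℝ) < K := by linarith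
  have hnK : (n : ℝ) = K ^ 3 := by rw [hn, hKdef]; push_cast; ring
  have hTK : (T : ℝ) = K ^ 3 - 17 * K ^ 2 := by
    have : (T : ℝ) + 17 * K ^ 2 = n := by rw [hKdef]; exact_mod_cast hT
    linarith
  have hn1 : 1 ≤ n := by
    rw [hn]
    exact Nat.one_le_pow _ _ (by omega)
  have hNK : (N : ℝ) = 2 * K ^ 3 * (K ^ 3 - 1) := by
    rw [← hN, card_Cl, Nat.cast_mul, Nat.cast_mul, Nat.cast_sub hn1, hnK]
    push_cast
    ring
  have hK3 : (1 : ℝ) < K ^ 3 := by
    have : (1 : ℝ) < K := by linarith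
    exact one_lt_pow₀ this (by norm_num)
  obtain ⟨p, hpdef⟩ : ∃ p : ℝ, p = T / N := ⟨_, rfl⟩
  obtain ⟨x, hxdef⟩ : ∃ x : ℝ, x = p * (2 * K ^ 3) := ⟨_, rfl⟩
  have hxT : x * (K ^ 3 - 1) = K ^ 3 - 17 * K ^ 2 := by
    rw [hxdef, hpdef, hTK, hNK]
    have : K ^ 3 - 1 ≠ 0 := by linarith
    field_simp
  have hx1 : x ≤ 1 - 16 / K := by
    have h : (1 - 16 / K) * (K ^ 3 - 1) = K ^ 3 - 16 * K ^ 2 - 1 + 16 / K := by
      field_simp
      ring
    have h' : x * (K ^ 3 - 1) ≤ (1 - 16 / K) * (K ^ 3 - 1) := by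
      rw [hxT, h]
      have : 0 ≤ 16 / K := by positivity
      nlinarith
    exact le_of_mul_le_mul_right h' (by linarith)
  have hx0 : 1 - 17 / K ≤ x := by
    have h : (1 - 17 / K) * (K ^ 3 - 1) = K ^ 3 - 17 * K ^ 2 - 1 + 17 / K := by
      field_simp
      ring
    have h' : (1 - 17 / K) * (K ^ 3 - 1) ≤ x * (K ^ 3 - 1) := by
      rw [hxT, h]
      have : 17 / K ≤ 1 := by
        rw [div_le_one hK0]
        linarith
      linarith
    exact le_of_mul_le_mul_right h' (by linarith)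
  have h17 : 17 / K ≤ 1 / 100 := by
    rw [div_le_div_iff₀ hK0 (by norm_num)]
    linarith
  have hxpos : 0 ≤ x := by linarith
  have hxx : x ≤ 1 := by
    have : 0 ≤ 16 / K := by positivity
    linarith
  have hp0 : 0 ≤ p := by rw [hpdef]; positivity
  have hTn : T ≤ N := by
    have h1 : (T : ℝ) ≤ N := by
      rw [hTK, hNK]
      have : 0 ≤ 17 * K ^ 2 := by positivity
      nlinarith
    exact_mod_cast h1
  have hN0 : (0 : ℝ) < N := by
    rw [hNK]
    have : 0 < K ^ 3 - 1 := by linarith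
    positivity
  have hp1 : p ≤ 1 := by
    rw [hpdef, div_le_one hN0]
    exact_mod_cast hTn
  have hnp : 2 * (n : ℝ) * p ≤ 1 := by
    rw [hnK]
    have : 2 * K ^ 3 * p = x := by rw [hxdef]; ring
    rw [this]
    exact hxx
  have hpr : ∀ A : Finset (Finset (Lit n)),
      pr (fun e : Fin N ≃ Cl n => A ⊆ form T e) ≤ p ^ A.card := by
    intro A
    rw [hpdef]
    exact form_le hN T hTn A
  -- the uniquely satisfiable subformulas
  have hU : pr (fun e : Fin N ≃ Cl n => HasUniq (form T e)) ≤ 1 / 10 ^ 9 := by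
    have h11 : (0 : ℝ) < 11 / K := by positivity
    have h := uniq_prob (n := n) (fun e : Fin N ≃ Cl n => form T e) hp0 hp1 hpr
      (fun e c hc => valid_of_mem_form hc) (2 * (256 * L)) (by omega) (1 - 11 / K)
      (by
        have := uniq_num hK hx1 hxpos hxdef.symm
        rw [hnK]
        push_cast
        rw [hKdef] at this ⊢
        refine le_trans (le_of_eq ?_) this
        ring) (by linarith) hnp
    refine h.trans ?_
    have h' := uniq_num2 (256 * L) (by rw [hKdef]; push_cast; ring) hK hx1 hxpos hxdef.symm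
    refine le_trans (le_of_eq ?_) h'
    have e1 : ((2 * (2 * (256 * L)) : ℕ) : ℝ) = 4 * K := by rw [hKdef]; push_cast; ring
    have e2 : ((2 * (256 * L) : ℕ) : ℝ) = 2 * K := by rw [hKdef]; push_cast; ring
    have e3 : 2 * (n : ℝ) * p = x := by rw [hnK, hxdef]; ring
    rw [e1, e2, e3]
  -- the unsatisfiable formulas
  have hT0 : (0 : ℝ) < T := by
    rw [hTK]
    have : K ^ 3 - 17 * K ^ 2 = K ^ 2 * (K - 17) := by ring
    rw [this]
    have : 0 < K - 17 := by linarith
    positivity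
  have hLT : 4 * L ≤ T := by
    have h1 : ((4 * L : ℕ) : ℝ) ≤ T := by
      rw [hTK]
      push_cast
      have : K ^ 3 - 17 * K ^ 2 = K ^ 2 * (K - 17) := by ring
      rw [this]
      have h2 : 1 ≤ K - 17 := by linarith
      have h3 : 4 * (L : ℝ) ≤ K ^ 2 := by
        have : 4 * (L : ℝ) ≤ K := by rw [hKdef]; linarith
        nlinarith
      nlinarith
    exact_mod_cast h1
  have hLn : 4 * L ≤ n := by omega
  obtain ⟨ε, hεdef⟩ : ∃ ε : ℝ, ε = (4 * L) * (4 * L + 1) / T := ⟨_, rfl⟩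
  have hε0 : 0 ≤ ε := by rw [hεdef]; positivity
  have hε : ε ≤ 1 / 1000 := by
    rw [hεdef, div_le_iff₀ hT0, hTK, hKdef]
    have hL0 : (0 : ℝ) < L := by linarith
    have e : 1 / 1000 * ((256 * (L : ℝ)) ^ 3 - 17 * (256 * L) ^ 2) =
        L ^ 2 * (16777216 / 1000 * L - 17 * 65536 / 1000) := by ring
    rw [e]
    have e' : 4 * (L : ℝ) * (4 * L + 1) = L ^ 2 * 16 + 4 * L := by ring
    rw [e']
    have e'' : 4 * (L : ℝ) ≤ L ^ 2 * 4 := by nlinarith
    have : L ^ 2 * 20 ≤ (L : ℝ) ^ 2 * (16777216 / 1000 * L - 17 * 65536 / 1000) := by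
      apply mul_le_mul_of_nonneg_left _ (by positivity)
      linarith
    linarith
  obtain ⟨hε1, hnum⟩ := unsat_num (L := L) (K := K) (p := p) (x := x) (ε := ε) L rfl hLr hKdef hx1
    hx0 hxdef.symm hε0 hε
  have hlow : ∀ A : Finset (Finset (Lit n)), (∀ c ∈ A, Valid c) → A.card ≤ 4 * L + 1 →
      (1 - ε) * p ^ A.card ≤ pr (fun e : Fin N ≃ Cl n => A ⊆ form T e) := by
    intro A hA hAc
    have h := le_form hN T hTn (4 * L) hLT A hA hAc
    refine le_trans ?_ h
    have e1 : ((T : ℝ) - (4 * L : ℕ)) / N = (1 + -((4 * L : ℕ) / (T : ℝ))) * p := by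
      rw [hpdef]
      field_simp
      ring
    rw [e1, mul_pow]
    apply mul_le_mul_of_nonneg_right _ (by positivity)
    have h4 : ((4 * L : ℕ) : ℝ) / T ≤ 1 := by
      rw [div_le_one hT0]
      exact_mod_cast hLT
    refine le_trans ?_ (one_add_mul_le_pow (by linarith) _)
    have h5 : (A.card : ℝ) * ((4 * L : ℕ) / (T : ℝ)) ≤ ε := by
      rw [hεdef]
      have h6 : (A.card : ℝ) ≤ 4 * L + 1 := by exact_mod_cast hAc
      have h7 : (0 : ℝ) ≤ (4 * L : ℕ) / (T : ℝ) := by positivity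
      refine (mul_le_mul_of_nonneg_right h6 h7).trans (le_of_eq ?_)
      push_cast
      ring
    linarith
  have hS := unsat_prob (n := n) (by omega : 1 ≤ L) hLn (fun e : Fin N ≃ Cl n => form T e) hp0 hpr
    hnp ε hlow hε1
  rw [hnK] at hS
  linarith

end Pool.Agent.Helper96.TwoSat
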