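import Mathlib
import Pool.Agent.Helper96.TwoSat.Numerics

/-!
# The disproof for `k = 2`
-/

set_option autoImplicit false

open Finset
open scoped Classical

namespace Pool.Agent.Helper96.TwoSat

/-- the event of the frozen statement, for `k = 2` -/
def Ev {n N : ℕ} (e : Fin N ≃ Cl n) : Prop :=
  ∃ m : ℕ,
    (∀ j : ℕ, j < m → ∃ a : Fin n → Bool,
      ∀ c : Cl n, ((e.symm c : Fin _) : ℕ) < j → ∃ l ∈ c.val, a l.1 = l.2) ∧
    ∃ H : Finset (Cl n),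
      H.Nonempty ∧
      (∀ c ∈ H, ((e.symm c : Fin _) : ℕ) < m) ∧
      ∃ a : Fin n → Bool,
        (∀ c ∈ H, ∃ l ∈ c.val, a l.1 = l.2) ∧
        ∀ b : Fin n → Bool, (∀ c ∈ H, ∃ l ∈ c.val, b l.1 = l.2) →
          ∀ i : Fin n, (∃ c ∈ H, ∃ l ∈ c.val, l.1 = i) → b i = a i

lemma ev_imp {n N : ℕ} (T : ℕ) (e : Fin N ≃ Cl n) (h : Ev e) :
    ¬ (¬ Sat (form T e)) ∨ HasUniq (form T e) := by
  obtain ⟨m, h1, H, hne, hm, a, ha, hb⟩ := h
  by_cases hT : T < m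
  · left
    rw [not_not]
    obtain ⟨a, ha⟩ := h1 T hT
    refine ⟨a, fun c hc => ?_⟩
    obtain ⟨hv, hlt⟩ := mem_form.1 hc
    exact ha ⟨c, hv⟩ hlt
  · right
    refine ⟨H.image Subtype.val, ?_, hne.image _, a, ?_, ?_⟩
    · intro c hc
      obtain ⟨c', hc', rfl⟩ := Finset.mem_image.1 hc
      exact mem_form.2 ⟨c'.2, (hm c' hc').trans_le (not_lt.1 hT)⟩
    · intro c hc
      obtain ⟨c', hc', rfl⟩ := Finset.mem_image.1 hc
      exact ha c' hc'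
    · intro b hb' i hi
      apply hb b
      · intro c hc
        exact hb' c.val (Finset.mem_image_of_mem _ hc)
      · obtain ⟨c, hc, l, hl, hi⟩ := hi
        obtain ⟨c', hc', rfl⟩ := Finset.mem_image.1 hc
        exact ⟨c', hc', l, hl, hi⟩

lemma pr_ev_le (L : ℕ) (hL : 10000000 ≤ L) (n N : ℕ) (hn : n = (256 * L) ^ 3)
    (hN : Fintype.card (Cl n) = N) :
    pr (fun e : Fin N ≃ Cl n => Ev e) ≤ 1 - 1 / 10 ^ 9 := by
  have hle : 17 * (256 * L) ^ 2 ≤ n := by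
    rw [hn, pow_succ (256 * L) 2, mul_comm]
    exact Nat.mul_le_mul_left _ (by omega)
  obtain ⟨T, hT⟩ : ∃ T, T + 17 * (256 * L) ^ 2 = n := ⟨n - 17 * (256 * L) ^ 2, by omega⟩
  have : Nonempty (Fin N ≃ Cl n) := nonempty_equiv hN
  have h := num_main L hL n N T hn hN hT
  have h1 : pr (fun e : Fin N ≃ Cl n => Ev e) ≤
      pr (fun e : Fin N ≃ Cl n => ¬ (¬ Sat (form T e)) ∨ HasUniq (form T e)) :=
    pr_mono fun e he => ev_imp T e he
  have h2 := pr_or_le (fun e : Fin N ≃ Cl n => ¬ (¬ Sat (form T e)))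
    (fun e : Fin N ≃ Cl n => HasUniq (form T e))
  rw [pr_not] at h2
  linarith

lemma ratio_eq (n N : ℕ) :
    (Nat.card {e : Fin N ≃ Cl n // Ev e} : ℝ) / (Nat.card (Fin N ≃ Cl n) : ℝ) =
      pr (fun e : Fin N ≃ Cl n => Ev e) := by
  unfold pr
  rw [Nat.card_eq_fintype_card, Nat.card_eq_fintype_card, Fintype.card_subtype]

/-- the disproof for `k = 2` -/
theorem not_tendsto_two :
    ¬ Filter.Tendsto
      (fun n : ℕ => (Nat.card {e : Fin (Nat.card (Cl n)) ≃ Cl n // Ev e} : ℝ) /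
        (Nat.card (Fin (Nat.card (Cl n)) ≃ Cl n) : ℝ)) Filter.atTop (nhds 1) := by
  intro h
  have h1 : ∀ᶠ n : ℕ in Filter.atTop, 1 - 1 / 10 ^ 9 <
      (Nat.card {e : Fin (Nat.card (Cl n)) ≃ Cl n // Ev e} : ℝ) /
        (Nat.card (Fin (Nat.card (Cl n)) ≃ Cl n) : ℝ) :=
    h.eventually (lt_mem_nhds (by norm_num))
  obtain ⟨n₀, hn₀⟩ := Filter.eventually_atTop.1 h1
  obtain ⟨L, hLdef⟩ : ∃ L : ℕ, L = 10000000 + n₀ := ⟨_, rfl⟩
  obtain ⟨n, hn⟩ : ∃ n : ℕ, n = (256 * L) ^ 3 := ⟨_, rfl⟩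
  have hnL : n₀ ≤ n := by
    rw [hn]
    calc n₀ ≤ 256 * L := by omega
      _ ≤ (256 * L) ^ 3 := Nat.le_self_pow (by norm_num) _
  have h2 := hn₀ n hnL
  have h3 := pr_ev_le L (by omega) n (Nat.card (Cl n)) hn Nat.card_eq_fintype_card.symm
  rw [ratio_eq] at h2
  linarith

end Pool.Agent.Helper96.TwoSat
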